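import Pool.Agent.Helper44.KW.Pair

/-! The block variance of a trigonometric polynomial along windows. -/

set_option autoImplicit false

namespace Pool.Agent.Helper44.KW

open MeasureTheory Set Filter Topology Pool.Agent.Helper78.KD

theorem lin_cont {u v : ℕ → ℝ → ℝ} {a b β₁ β₂ : ℝ} (hF : Fam u v a b β₁ β₂) {k : ℕ}
    (h : Fin k → ℤ) (n : ℕ) : ContinuousOn (fun x => lin h u n x) (Icc a b) := by
  unfold lin
  exact continuousOn_finsetSum _ fun i _ => continuousOn_const.mul
    (fun x hx => (hF.deriv (n + i) x hx).continuousAt.continuousWithinAt)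

theorem phi_win {k : ℕ} {Φ : (Fin k → ℝ) → ℝ} {S : Finset (Fin k → ℤ)} {z : (Fin k → ℤ) → ℂ}
    (hΦ : TrigP k Φ S z) (u : ℕ → ℝ → ℝ) (n : ℕ) (x : ℝ) :
    (Φ (win u k n x) : ℂ) = ∑ h ∈ S, z h * ex (lin h u n x) := hΦ _

theorem van_lin {k : ℕ} {h h' : Fin k → ℤ} {d : ℕ} (hV : Van h h' d) (u : ℕ → ℝ → ℝ) (n : ℕ)
    (x : ℝ) : lin h u n x + lin h' u (n + d) x = 0 := by
  rw [lin_pair]
  apply Finset.sum_eq_zero
  intro m _
  rw [hV m]; simp

theorem cov_win {x₀ β : ℝ} (hx : Transcendental ℤ x₀) (hβ : 1 < β) (k : ℕ)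
    (Φ : (Fin k → ℝ) → ℝ) (S : Finset (Fin k → ℤ)) (z : (Fin k → ℤ) → ℂ) (hS : 0 ∉ S)
    (hΦ : TrigP k Φ S z) :
    ∃ (D D₀ : ℕ) (τ B : ℝ), 0 < τ ∧ 0 ≤ B ∧ ∀ (u v : ℕ → ℝ → ℝ) (a b β₁ β₂ : ℝ), β ≤ β₁ →
      Fam u v a b β₁ β₂ → Ratio v a b τ D (fun d => x₀ ^ d) → Inc v a b β₁ τ D (fun d => x₀ ^ d) →
      ∀ (n i d : ℕ) (p q : ℝ), a ≤ p → p < q → q ≤ b → 1 ≤ u n q - u n p → u n q - u n p ≤ 2 →
      |(∫ x in p..q, Φ (win u k (n + i) x) * Φ (win u k (n + i + d) x)) / (q - p)
          - (rhoA S z d).re| ≤ B * β⁻¹ ^ i ∧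
      (D₀ ≤ d → |(∫ x in p..q, Φ (win u k (n + i) x) * Φ (win u k (n + i + d) x)) / (q - p)
          - (rhoA S z d).re| ≤ B * β⁻¹ ^ (i + d)) := by
  classical
  obtain ⟨D, D₀, τ, C, hτ, hC, hpair⟩ := pair_bound hx hβ k S hS
  set Z : ℝ := ∑ h ∈ S, ∑ h' ∈ S, ‖z h‖ * ‖z h'‖ with hZ
  have hZ0 : 0 ≤ Z := Finset.sum_nonneg fun h _ => Finset.sum_nonneg fun h' _ => by positivity
  refine ⟨D, D₀, τ, Z * (2 * C), hτ, by positivity, ?_⟩
  intro u v a b β₁ β₂ hββ hF hR hI n i d p q hp hpq hq h1 h2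
  have hβ0 : 0 < β := by linarith
  obtain ⟨-, hP⟩ := hpair u v a b β₁ β₂ hββ hF hR hI
  have hℓ : 0 < q - p := by linarith
  have hsub : uIcc p q ⊆ Icc a b := by
    rw [uIcc_of_le hpq.le]; exact Icc_subset_Icc hp hq
  have hcont : ∀ h h' : Fin k → ℤ, ContinuousOn
      (fun x => ex (lin h u (n + i) x + lin h' u (n + i + d) x)) (uIcc p q) := fun h h' =>
    ex_cont.comp_continuousOn (((lin_cont hF h _).add (lin_cont hF h' _)).mono hsub)
  -- expansion
  have hexp : ((∫ x in p..q, Φ (win u k (n + i) x) * Φ (win u k (n + i + d) x) : ℝ) : ℂ)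
      = ∑ h ∈ S, ∑ h' ∈ S, z h * z h'
        * ∫ x in p..q, ex (lin h u (n + i) x + lin h' u (n + i + d) x) := by
    rw [← intervalIntegral.integral_ofReal]
    have e1 : ∀ x, ((Φ (win u k (n + i) x) * Φ (win u k (n + i + d) x) : ℝ) : ℂ)
        = ∑ h ∈ S, ∑ h' ∈ S, z h * z h' * ex (lin h u (n + i) x + lin h' u (n + i + d) x) := by
      intro x
      rw [Complex.ofReal_mul, phi_win hΦ, phi_win hΦ, Finset.sum_mul_sum]
      apply Finset.sum_congr rfl
      intro h _
      apply Finset.sum_congr rfl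
      intro h' _
      rw [ex_add]; ring
    simp only [e1]
    have hIn : ∀ h ∈ S, ∀ h' ∈ S, IntervalIntegrable
        (fun x => z h * z h' * ex (lin h u (n + i) x + lin h' u (n + i + d) x)) volume p q :=
      fun h _ h' _ => (continuousOn_const.mul (hcont h h')).intervalIntegrable
    rw [intervalIntegral.integral_finsetSum (fun h hh => by
      apply ContinuousOn.intervalIntegrable
      exact continuousOn_finsetSum _ fun h' _ => continuousOn_const.mul (hcont h h'))]
    apply Finset.sum_congr rfl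
    intro h hh
    rw [intervalIntegral.integral_finsetSum (hIn h hh)]
    apply Finset.sum_congr rfl
    intro h' _
    rw [intervalIntegral.integral_const_mul]
  have hdiff : ((∫ x in p..q, Φ (win u k (n + i) x) * Φ (win u k (n + i + d) x) : ℝ) : ℂ)
      - rhoA S z d * ((q - p : ℝ) : ℂ)
      = ∑ h ∈ S, ∑ h' ∈ S, z h * z h'
        * ((∫ x in p..q, ex (lin h u (n + i) x + lin h' u (n + i + d) x))
          - if Van h h' d then ((q - p : ℝ) : ℂ) else 0) := by
    rw [hexp]
    unfold rhoA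
    rw [Finset.sum_mul, ← Finset.sum_sub_distrib]
    apply Finset.sum_congr rfl
    intro h _
    rw [Finset.sum_mul, ← Finset.sum_sub_distrib]
    apply Finset.sum_congr rfl
    intro h' _
    by_cases hV : Van h h' d
    · rw [if_pos hV, if_pos hV]; ring
    · rw [if_neg hV, if_neg hV]; ring
  have hbound : ∀ E : ℝ, 0 ≤ E → (∀ h ∈ S, ∀ h' ∈ S, ¬ Van h h' d →
      ‖∫ x in p..q, ex (lin h u (n + i) x + lin h' u (n + i + d) x)‖ ≤ E) →
      |(∫ x in p..q, Φ (win u k (n + i) x) * Φ (win u k (n + i + d) x)) / (q - p)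
          - (rhoA S z d).re| ≤ Z * (E / (q - p)) := by
    intro E hE0 hE
    have h3 : ‖((∫ x in p..q, Φ (win u k (n + i) x) * Φ (win u k (n + i + d) x) : ℝ) : ℂ)
        - rhoA S z d * ((q - p : ℝ) : ℂ)‖ ≤ Z * E := by
      rw [hdiff, hZ, Finset.sum_mul]
      refine (norm_sum_le _ _).trans (Finset.sum_le_sum fun h hh => ?_)
      rw [Finset.sum_mul]
      refine (norm_sum_le _ _).trans (Finset.sum_le_sum fun h' hh' => ?_)
      rw [norm_mul, norm_mul]
      apply mul_le_mul_of_nonneg_left _ (by positivity)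
      by_cases hV : Van h h' d
      · rw [if_pos hV]
        have e2 : ∫ x in p..q, ex (lin h u (n + i) x + lin h' u (n + i + d) x)
            = ((q - p : ℝ) : ℂ) := by
          simp only [van_lin hV, ex_zero]
          rw [intervalIntegral.integral_const]
          simp
        rw [e2, sub_self, norm_zero]
        exact hE0
      · rw [if_neg hV, sub_zero]
        exact hE h hh h' hh' hV
    have h4 : ((∫ x in p..q, Φ (win u k (n + i) x) * Φ (win u k (n + i + d) x)) / (q - p)
          - (rhoA S z d).re)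
        = ((((∫ x in p..q, Φ (win u k (n + i) x) * Φ (win u k (n + i + d) x) : ℝ) : ℂ)
        - rhoA S z d * ((q - p : ℝ) : ℂ)).re) / (q - p) := by
      rw [Complex.sub_re, Complex.ofReal_re, Complex.re_mul_ofReal]
      field_simp
    rw [h4, abs_div, abs_of_pos hℓ, ← mul_div_assoc]
    exact div_le_div_of_nonneg_right ((Complex.abs_re_le_norm _).trans h3) hℓ.le
  have hinv : ∀ j, C / v (n + j) p / (q - p) ≤ 2 * C * β⁻¹ ^ j := by
    intro j
    have := Pool.Agent.Helper44.KD.fam_inv hF hβ0 hββ n j hp hpq hq h1 h2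
    rw [div_le_iff₀ hℓ]
    calc C / v (n + j) p = C * (1 / v (n + j) p) := by ring
      _ ≤ C * (2 * β⁻¹ ^ j * (q - p)) := mul_le_mul_of_nonneg_left this hC.le
      _ = 2 * C * β⁻¹ ^ j * (q - p) := by ring
  have hpI : p ∈ Icc a b := ⟨hp, hpq.le.trans hq⟩
  refine ⟨?_, fun hd => ?_⟩
  · have h5 := hbound (C / v (n + i) p) (by have := hF.pos (n + i) p hpI; positivity)
      (fun h hh h' hh' hV => (hP h hh h' hh' (n + i) d p q hp hpq.le hq hV).1)
    refine h5.trans ?_
    calc Z * (C / v (n + i) p / (q - p)) ≤ Z * (2 * C * β⁻¹ ^ i) :=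
          mul_le_mul_of_nonneg_left (hinv i) hZ0
      _ = Z * (2 * C) * β⁻¹ ^ i := by ring
  · have h5 := hbound (C / v (n + i + d) p) (by have := hF.pos (n + i + d) p hpI; positivity)
      (fun h hh h' hh' hV => (hP h hh h' hh' (n + i) d p q hp hpq.le hq hV).2 hd)
    refine h5.trans ?_
    have h6 := hinv (i + d)
    rw [← add_assoc] at h6
    calc Z * (C / v (n + i + d) p / (q - p)) ≤ Z * (2 * C * β⁻¹ ^ (i + d)) :=
          mul_le_mul_of_nonneg_left h6 hZ0
      _ = Z * (2 * C) * β⁻¹ ^ (i + d) := by ring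

theorem not_van_of_ge {k : ℕ} {S : Finset (Fin k → ℤ)} (hS : 0 ∉ S) {h h' : Fin k → ℤ}
    (hh : h ∈ S) {d : ℕ} (hd : k ≤ d) : ¬ Van h h' d := by
  intro hV
  apply hS
  have : h = 0 := by
    funext i
    have h1 := hV i
    unfold cmb at h1
    rw [dif_pos i.2, dif_neg (by omega)] at h1
    simpa using h1
  rwa [this] at hh

theorem rhoA_zero {k : ℕ} {S : Finset (Fin k → ℤ)} (hS : 0 ∉ S) (z : (Fin k → ℤ) → ℂ) {d : ℕ}
    (hd : k ≤ d) : rhoA S z d = 0 := by
  unfold rhoA
  apply Finset.sum_eq_zero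
  intro h hh
  apply Finset.sum_eq_zero
  intro h' _
  rw [if_neg (not_van_of_ge hS hh hd)]

/-- the sum of a stationary covariance of finite range -/
theorem stat_sum (r : ℕ → ℝ) (k : ℕ) (hr : ∀ d, k ≤ d → r d = 0) {L : ℕ} (hL : k ≤ L) :
    ∑ i ∈ Finset.range L, ∑ j ∈ Finset.range L, r ((i - j) + (j - i))
        - L * ∑ d ∈ Finset.range k, (if d = 0 then 1 else 2) * r d
      = ∑ i ∈ Finset.range k, ∑ j ∈ Finset.range k, r ((i - j) + (j - i))
        - k * ∑ d ∈ Finset.range k, (if d = 0 then 1 else 2) * r d := by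
  induction L, hL using Nat.le_induction with
  | base => rfl
  | succ L hL ih =>
    rw [← ih]
    have h1 : ∑ i ∈ Finset.range (L + 1), ∑ j ∈ Finset.range (L + 1), r ((i - j) + (j - i))
        = ∑ i ∈ Finset.range L, ∑ j ∈ Finset.range L, r ((i - j) + (j - i))
          + 2 * ∑ i ∈ Finset.range L, r (L - i) + r 0 := by
      rw [Finset.sum_range_succ]
      have a1 : ∑ i ∈ Finset.range L, ∑ j ∈ Finset.range (L + 1), r ((i - j) + (j - i))
          = ∑ i ∈ Finset.range L, ∑ j ∈ Finset.range L, r ((i - j) + (j - i))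
            + ∑ i ∈ Finset.range L, r (L - i) := by
        rw [← Finset.sum_add_distrib]
        apply Finset.sum_congr rfl
        intro i hi
        have hi' := Finset.mem_range.1 hi
        rw [Finset.sum_range_succ]
        have : (i - L) + (L - i) = L - i := by omega
        rw [this]
      have a2 : ∑ j ∈ Finset.range (L + 1), r ((L - j) + (j - L))
          = ∑ j ∈ Finset.range L, r (L - j) + r 0 := by
        rw [Finset.sum_range_succ]
        congr 1
        · apply Finset.sum_congr rfl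
          intro j hj
          have hj' := Finset.mem_range.1 hj
          have : (L - j) + (j - L) = L - j := by omega
          rw [this]
        · simp
      rw [a1, a2]; ring
    have h2 : ∑ i ∈ Finset.range L, r (L - i) = ∑ d ∈ Finset.range L, r (d + 1) := by
      rw [← Finset.sum_range_reflect]
      apply Finset.sum_congr rfl
      intro d hd
      have hd' := Finset.mem_range.1 hd
      congr 1
      omega
    have h3 : 2 * ∑ d ∈ Finset.range L, r (d + 1) + r 0
        = ∑ d ∈ Finset.range k, (if d = 0 then 1 else 2) * r d := by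
      rcases Nat.eq_zero_or_pos k with hk | hk
      · subst hk
        have h0 : ∀ d, r d = 0 := fun d => hr d (Nat.zero_le _)
        simp [h0]
      · obtain ⟨k', rfl⟩ : ∃ k', k = k' + 1 := ⟨k - 1, by omega⟩
        rw [Finset.sum_range_succ']
        have h4 : ∑ d ∈ Finset.range L, r (d + 1) = ∑ d ∈ Finset.range k', r (d + 1) := by
          symm
          apply Finset.sum_subset (fun x hx => by
            have := Finset.mem_range.1 hx
            exact Finset.mem_range.2 (by omega))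
          intro d _ hd
          apply hr
          have : ¬ d < k' := fun h => hd (Finset.mem_range.2 h)
          omega
        rw [h4, Finset.mul_sum]
        simp
    rw [h1, h2, ← h3]
    push_cast
    ring

/-- the block variance; `Q` is the algebraic variance -/
theorem block_win {x₀ β ε : ℝ} (hx : Transcendental ℤ x₀) (hβ : 1 < β) (k : ℕ)
    (Φ : (Fin k → ℝ) → ℝ) (S : Finset (Fin k → ℤ)) (z : (Fin k → ℤ) → ℂ) (hS : 0 ∉ S)
    (hΦ : TrigP k Φ S z) (Q : ℝ)
    (hQ : (Q : ℂ) = ∑ d ∈ Finset.range k, (if d = 0 then 1 else 2) * rhoA S z d) (hε : 0 < ε) :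
    ∃ (D : ℕ) (τ : ℝ) (L₀ : ℕ), 0 < τ ∧ ∀ (u v : ℕ → ℝ → ℝ) (a b β₁ β₂ : ℝ), β ≤ β₁ →
      Fam u v a b β₁ β₂ → Ratio v a b τ D (fun d => x₀ ^ d) → Inc v a b β₁ τ D (fun d => x₀ ^ d) →
      ∀ L : ℕ, L₀ ≤ L → ∀ (n : ℕ) (p q : ℝ), a ≤ p → p < q → q ≤ b → 1 ≤ u n q - u n p →
      u n q - u n p ≤ 2 →
      |(∫ x in p..q, (∑ j ∈ Finset.Ico n (n + L), Φ (win u k j x)) ^ 2) - Q * L * (q - p)|
        ≤ ε * L * (q - p) := by
  obtain ⟨D, D₀, τ, B, hτ, hB, hcov⟩ := cov_win hx hβ k Φ S z hS hΦ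
  have hβ0 : 0 < β := by linarith
  set r : ℝ := β⁻¹ with hr
  have hr0 : 0 < r := inv_pos.2 hβ0
  have hr1 : r < 1 := inv_lt_one_of_one_lt₀ hβ
  set ρ : ℕ → ℝ := fun d => (rhoA S z d).re with hρ
  have hρ0 : ∀ d, k ≤ d → ρ d = 0 := fun d hd => by
    simp only [hρ, rhoA_zero hS z hd, Complex.zero_re]
  have hQρ : Q = ∑ d ∈ Finset.range k, (if d = 0 then 1 else 2) * ρ d := by
    have h1 := congrArg Complex.re hQ
    rw [Complex.ofReal_re, Complex.re_sum] at h1
    rw [h1]
    apply Finset.sum_congr rfl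
    intro d _
    by_cases hd : d = 0
    · simp only [hρ, hd, if_true, one_mul]
    · simp only [hρ, hd, if_false]
      simp
  -- constants
  set B' : ℝ := B * β ^ D₀ with hB'
  have hB'0 : 0 ≤ B' := by positivity
  have hsummable : Summable fun j : ℕ => B' * (1 + 2 * (j : ℝ)) * r ^ j := by
    have s1 : Summable fun j : ℕ => r ^ j := summable_geometric_of_lt_one hr0.le hr1
    have s2 : Summable fun j : ℕ => (j : ℝ) * r ^ j := by
      have := summable_pow_mul_geometric_of_norm_lt_one (R := ℝ) 1 (r := r)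
        (by rw [Real.norm_eq_abs, abs_of_pos hr0]; exact hr1)
      simpa using this
    have s3 := (s1.mul_left B').add (s2.mul_left (2 * B'))
    refine s3.congr fun j => ?_
    ring
  set K : ℝ := ∑' j : ℕ, B' * (1 + 2 * (j : ℝ)) * r ^ j with hK
  set K₂ : ℝ := |∑ i ∈ Finset.range k, ∑ j ∈ Finset.range k, ρ ((i - j) + (j - i))
        - k * ∑ d ∈ Finset.range k, (if d = 0 then 1 else 2) * ρ d| with hK₂
  obtain ⟨L₁, hL₁⟩ := exists_nat_ge ((K + K₂) / ε)
  refine ⟨D, τ, max L₁ k, hτ, ?_⟩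
  intro u v a b β₁ β₂ hββ hF hR hI L hL n p q hp hpq hq h1 h2
  have hℓ : 0 < q - p := by linarith
  let c : ℕ → ℕ → ℝ := fun i j =>
    (∫ x in p..q, Φ (win u k (n + i) x) * Φ (win u k (n + j) x)) / (q - p)
  let c' : ℕ → ℕ → ℝ := fun i j => c i j - ρ ((i - j) + (j - i))
  have hcc : ∀ i j, c' i j = c' j i := by
    intro i j
    simp only [c', c]
    rw [add_comm (i - j)]
    congr 3
    funext x
    ring
  have hc'1 : ∀ i d, |c' i (i + d)| ≤ B' * r ^ (i + d) := by
    intro i d
    have e1 : (i - (i + d)) + ((i + d) - i) = d := by omega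
    have e2 : n + (i + d) = n + i + d := by ring
    have h3 := hcov u v a b β₁ β₂ hββ hF hR hI n i d p q hp hpq hq h1 h2
    have e3 : c' i (i + d) = (∫ x in p..q, Φ (win u k (n + i) x) * Φ (win u k (n + i + d) x))
        / (q - p) - (rhoA S z d).re := by
      simp only [c', c, e1, e2, hρ]
    rw [e3]
    have hβD : (1 : ℝ) ≤ β ^ D₀ := one_le_pow₀ hβ.le
    rcases Nat.lt_or_ge d D₀ with hd | hd
    · refine h3.1.trans ?_
      have e4 : r ^ i = β ^ d * r ^ (i + d) := by
        rw [pow_add]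
        have : β ^ d * r ^ d = 1 := by rw [← mul_pow, hr, mul_inv_cancel₀ hβ0.ne', one_pow]
        calc r ^ i = r ^ i * (β ^ d * r ^ d) := by rw [this, mul_one]
          _ = β ^ d * (r ^ i * r ^ d) := by ring
      rw [e4, hB']
      have e5 : β ^ d ≤ β ^ D₀ := pow_le_pow_right₀ hβ.le hd.le
      have e6 : 0 ≤ B * r ^ (i + d) := by positivity
      calc B * (β ^ d * r ^ (i + d)) = β ^ d * (B * r ^ (i + d)) := by ring
        _ ≤ β ^ D₀ * (B * r ^ (i + d)) := mul_le_mul_of_nonneg_right e5 e6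
        _ = B * β ^ D₀ * r ^ (i + d) := by ring
    · refine (h3.2 hd).trans ?_
      rw [hB']
      have e6 : 0 ≤ B * r ^ (i + d) := by positivity
      calc B * r ^ (i + d) = 1 * (B * r ^ (i + d)) := by ring
        _ ≤ β ^ D₀ * (B * r ^ (i + d)) := mul_le_mul_of_nonneg_right hβD e6
        _ = B * β ^ D₀ * r ^ (i + d) := by ring
  have hsum := H44TX.sum_sq_bound c' hcc 0 L
  have hrows : ∑ j ∈ Finset.range L, (|c' j j - 0| + 2 * ∑ i ∈ Finset.range j, |c' i j|) ≤ K := by
    have h3 : ∀ j ∈ Finset.range L, |c' j j - 0| + 2 * ∑ i ∈ Finset.range j, |c' i j|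
        ≤ B' * (1 + 2 * (j : ℝ)) * r ^ j := by
      intro j _
      have h4 : |c' j j| ≤ B' * r ^ j := by
        have := hc'1 j 0
        simpa using this
      have h5 : ∑ i ∈ Finset.range j, |c' i j| ≤ j * (B' * r ^ j) := by
        have : ∀ i ∈ Finset.range j, |c' i j| ≤ B' * r ^ j := by
          intro i hi
          have hi' := Finset.mem_range.1 hi
          have := hc'1 i (j - i)
          have e : i + (j - i) = j := by omega
          rwa [e] at this
        refine (Finset.sum_le_sum this).trans ?_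
        rw [Finset.sum_const, Finset.card_range, nsmul_eq_mul]
      rw [sub_zero]
      nlinarith
    refine (Finset.sum_le_sum h3).trans ?_
    exact hsummable.sum_le_tsum _ (fun j _ => by positivity)
  have hstat := stat_sum ρ k hρ0 ((le_max_right L₁ k).trans hL)
  -- expansion of the square
  have hsubU : uIcc p q ⊆ Icc a b := by
    rw [uIcc_of_le hpq.le]; exact Icc_subset_Icc hp hq
  have hcont : ∀ j, ContinuousOn (fun x => Φ (win u k j x)) (uIcc p q) := by
    intro j
    have e1 : (fun x => Φ (win u k j x)) = fun x => (∑ h ∈ S, z h * ex (lin h u j x)).re := by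
      funext x
      rw [← phi_win hΦ, Complex.ofReal_re]
    rw [e1]
    exact Complex.continuous_re.comp_continuousOn (continuousOn_finsetSum _ fun h _ =>
      continuousOn_const.mul (ex_cont.comp_continuousOn ((lin_cont hF h j).mono hsubU)))
  have hexp : (∫ x in p..q, (∑ j ∈ Finset.Ico n (n + L), Φ (win u k j x)) ^ 2)
      = (∑ i ∈ Finset.range L, ∑ j ∈ Finset.range L, c i j) * (q - p) := by
    have e1 : ∀ x, (∑ j ∈ Finset.Ico n (n + L), Φ (win u k j x)) ^ 2
        = ∑ i ∈ Finset.range L, ∑ j ∈ Finset.range L,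
          Φ (win u k (n + i) x) * Φ (win u k (n + j) x) := by
      intro x
      rw [Finset.sum_Ico_eq_sum_range, Nat.add_sub_cancel_left, sq, Finset.sum_mul_sum]
    simp only [e1]
    have hI2 : ∀ i ∈ Finset.range L, IntervalIntegrable
        (fun x => ∑ j ∈ Finset.range L, Φ (win u k (n + i) x) * Φ (win u k (n + j) x))
        volume p q := by
      intro i _
      apply ContinuousOn.intervalIntegrable
      exact continuousOn_finsetSum _ fun j _ => (hcont (n + i)).mul (hcont (n + j))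
    rw [intervalIntegral.integral_finsetSum hI2, Finset.sum_mul]
    apply Finset.sum_congr rfl
    intro i _
    have hI3 : ∀ j ∈ Finset.range L, IntervalIntegrable
        (fun x => Φ (win u k (n + i) x) * Φ (win u k (n + j) x)) volume p q := fun j _ =>
      ((hcont (n + i)).mul (hcont (n + j))).intervalIntegrable
    rw [intervalIntegral.integral_finsetSum hI3, Finset.sum_mul]
    apply Finset.sum_congr rfl
    intro j _
    simp only [c]
    field_simp
  have hsplit : ∑ i ∈ Finset.range L, ∑ j ∈ Finset.range L, c i j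
      = ∑ i ∈ Finset.range L, ∑ j ∈ Finset.range L, c' i j
        + ∑ i ∈ Finset.range L, ∑ j ∈ Finset.range L, ρ ((i - j) + (j - i)) := by
    rw [← Finset.sum_add_distrib]
    apply Finset.sum_congr rfl
    intro i _
    rw [← Finset.sum_add_distrib]
    apply Finset.sum_congr rfl
    intro j _
    simp only [c']; ring
  rw [hexp, hsplit]
  have e1 : (∑ i ∈ Finset.range L, ∑ j ∈ Finset.range L, c' i j
        + ∑ i ∈ Finset.range L, ∑ j ∈ Finset.range L, ρ ((i - j) + (j - i))) * (q - p)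
      - Q * L * (q - p)
      = ((∑ i ∈ Finset.range L, ∑ j ∈ Finset.range L, c' i j - L * 0)
        + (∑ i ∈ Finset.range L, ∑ j ∈ Finset.range L, ρ ((i - j) + (j - i)) - L * Q)) * (q - p) := by
    ring
  rw [e1, abs_mul, abs_of_pos hℓ]
  apply mul_le_mul_of_nonneg_right _ hℓ.le
  have e2 : |∑ i ∈ Finset.range L, ∑ j ∈ Finset.range L, ρ ((i - j) + (j - i)) - L * Q| = K₂ := by
    rw [hQρ, hstat]
  refine (abs_add_le _ _).trans ?_
  have e3 : (K + K₂) / ε ≤ L := hL₁.trans (by exact_mod_cast (le_max_left _ _).trans hL)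
  rw [div_le_iff₀ hε] at e3
  have e4 := hsum.trans hrows
  linarith

end Pool.Agent.Helper44.KW
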