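import Pool.Agent.Helper78.KD.Defs

/-!
# Windows of a family and trigonometric polynomials of several variables: definitions
-/

set_option autoImplicit false

namespace Pool.Agent.Helper44.KW

open MeasureTheory Set Filter Topology Pool.Agent.Helper78.KD

/-- the exponential with period one -/
noncomputable def ex (t : ℝ) : ℂ := Complex.exp (2 * Real.pi * t * Complex.I)

/-- linear combination of the terms of a window -/
noncomputable def lin {k : ℕ} (h : Fin k → ℤ) (w : ℕ → ℝ → ℝ) (n : ℕ) (x : ℝ) : ℝ :=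
  ∑ i, (h i : ℝ) * w (n + i) x

/-- the window of length `k` -/
def win (u : ℕ → ℝ → ℝ) (k n : ℕ) (x : ℝ) : Fin k → ℝ := fun i => u (n + i) x

/-- `Φ` is the trigonometric polynomial with frequencies in `S` and coefficients `z` -/
def TrigP (k : ℕ) (Φ : (Fin k → ℝ) → ℝ) (S : Finset (Fin k → ℤ)) (z : (Fin k → ℤ) → ℂ) : Prop :=
  ∀ t, (Φ t : ℂ) = ∑ h ∈ S, z h * ex (∑ i, (h i : ℝ) * t i)

/-- real trigonometric polynomials of `k` variables, of mean zero and bounded by one -/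
def Trig (k : ℕ) (Φ : (Fin k → ℝ) → ℝ) : Prop :=
  (∃ (S : Finset (Fin k → ℤ)) (z : (Fin k → ℤ) → ℂ), 0 ∉ S ∧ TrigP k Φ S z) ∧ ∀ t, |Φ t| ≤ 1

/-- covariance of `Φ` and its translate by `d` for independent uniform variables -/
noncomputable def rho (k : ℕ) (Φ : (Fin k → ℝ) → ℝ) (d : Fin k) : ℝ :=
  ∫ t in Icc (0 : Fin (2 * k) → ℝ) 1,
    Φ (fun i : Fin k => t ⟨i, by omega⟩) * Φ (fun i : Fin k => t ⟨i + d, by omega⟩)

/-- asymptotic variance of `Φ` along a sequence of independent uniform variables -/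
noncomputable def sig2 (k : ℕ) (Φ : (Fin k → ℝ) → ℝ) : ℝ :=
  ∑ d : Fin k, (if (d : ℕ) = 0 then 1 else 2) * rho k Φ d

/-- coefficient of a combination of two windows at distance `d` -/
def cmb {k : ℕ} (h h' : Fin k → ℤ) (d m : ℕ) : ℤ :=
  (if hm : m < k then h ⟨m, hm⟩ else 0) + (if hm : d ≤ m ∧ m < d + k then h' ⟨m - d, by omega⟩ else 0)

/-- the combination vanishes -/
def Van {k : ℕ} (h h' : Fin k → ℤ) (d : ℕ) : Prop := ∀ m, cmb h h' d m = 0

open Classical in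
/-- the covariance by Fourier coefficients -/
noncomputable def rhoA {k : ℕ} (S : Finset (Fin k → ℤ)) (z : (Fin k → ℤ) → ℂ) (d : ℕ) : ℂ :=
  ∑ h ∈ S, ∑ h' ∈ S, if Van h h' d then z h * z h' else 0

/-- growth and ratios of the increments of the derivatives -/
structure Inc (v : ℕ → ℝ → ℝ) (a b β τ : ℝ) (D : ℕ) (γ : ℕ → ℝ) : Prop where
  grow : ∀ n, MonotoneOn (fun x => v (n + 1) x - β * v n x) (Icc a b)
  lo : ∀ d, 1 ≤ d → d ≤ D → ∀ j, MonotoneOn (fun x => v (j + d) x - (γ d - τ) * v j x) (Icc a b)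
  up : ∀ d, 1 ≤ d → d ≤ D → ∀ j, MonotoneOn (fun x => (γ d + τ) * v j x - v (j + d) x) (Icc a b)

/-- mean over an interval of a series of functions -/
noncomputable def MvG (X : ℕ → ℝ → ℝ) (p q : ℝ) : ℝ := ∑' n : ℕ, (∫ x in p..q, X n x) / (q - p)

/-- local families, with the increments of the derivatives -/
def LocFamI (U : ℕ → ℝ → ℝ) (G : Set ℝ) (γ : ℕ → ℝ) (D : ℕ) (τ β₁ β₂ : ℝ) : Prop :=
  ∀ x ∈ G, ∀ O ∈ 𝓝 x, ∃ (n₀ : ℕ) (v : ℕ → ℝ → ℝ) (a b : ℝ), x ∈ Ioo a b ∧ Icc a b ⊆ O ∧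
    Fam (fun n => U (n + n₀)) v a b β₁ β₂ ∧ Ratio v a b τ D γ ∧ Inc v a b β₁ τ D γ

end Pool.Agent.Helper44.KW
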