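import Pool.Agent.Helper44.KW.BlockWin
import Pool.Agent.Helper41.KW.MeanSeries
import Pool.Agent.Helper41.KW.WinLip
import Pool.Agent.Helper31.KW.W5
import Pool.Agent.Helper64.KD.InstI
import Pool.Agent.Helper78.KD.Main

/-! Windows: dimensions. -/

set_option autoImplicit false

namespace Pool.Agent.Helper44.KW

open MeasureTheory Set Filter Topology Pool.Agent.Helper78.KD

section mono

variable {u v : ℕ → ℝ → ℝ} {a b β₁ β₂ τ τ' : ℝ} {D D' : ℕ} {γ : ℕ → ℝ}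

theorem ratio_mono (hF : Fam u v a b β₁ β₂) (h : Ratio v a b τ D γ) (hτ : τ ≤ τ') (hD : D' ≤ D) :
    Ratio v a b τ' D' γ := fun d h1 h2 j x hx =>
  (h d h1 (h2.trans hD) j x hx).trans (mul_le_mul_of_nonneg_right hτ (hF.pos j x hx).le)

theorem inc_mono (hF : Fam u v a b β₁ β₂) (h : Inc v a b β₁ τ D γ) (hτ : τ ≤ τ') (hD : D' ≤ D) :
    Inc v a b β₁ τ' D' γ := by
  refine ⟨h.grow, fun d h1 h2 j x hx y hy hxy => ?_, fun d h1 h2 j x hx y hy hxy => ?_⟩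
  · have e1 := h.lo d h1 (h2.trans hD) j hx hy hxy
    have e2 := mul_le_mul_of_nonneg_left (hF.mono j hx hy hxy) (show 0 ≤ τ' - τ by linarith)
    simp only at e1 ⊢
    linarith
  · have e1 := h.up d h1 (h2.trans hD) j hx hy hxy
    have e2 := mul_le_mul_of_nonneg_left (hF.mono j hx hy hxy) (show 0 ≤ τ' - τ by linarith)
    simp only at e1 ⊢
    linarith

end mono

theorem locI_mono {U : ℕ → ℝ → ℝ} {G : Set ℝ} {γ : ℕ → ℝ} {D D' : ℕ} {τ τ' β₁ β₂ : ℝ}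
    (h : LocFamI U G γ D τ β₁ β₂) (hτ : τ ≤ τ') (hD : D' ≤ D) : LocFamI U G γ D' τ' β₁ β₂ := by
  intro x hx O hO
  obtain ⟨n₀, v, a, b, h1, h2, hF, hR, hI⟩ := h x hx O hO
  exact ⟨n₀, v, a, b, h1, h2, hF, ratio_mono hF hR hτ hD, inc_mono hF hI hτ hD⟩

theorem int_win {x₀ β : ℝ} (hx : Transcendental ℤ x₀) (hβ : 1 < β) (k : ℕ)
    (Φ : (Fin k → ℝ) → ℝ) (S : Finset (Fin k → ℤ)) (z : (Fin k → ℤ) → ℂ) (hS : 0 ∉ S)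
    (hΦ : TrigP k Φ S z) :
    ∃ (D : ℕ) (τ C : ℝ), 0 < τ ∧ 0 ≤ C ∧ ∀ (u v : ℕ → ℝ → ℝ) (a b β₁ β₂ : ℝ), β ≤ β₁ →
      Fam u v a b β₁ β₂ → Ratio v a b τ D (fun d => x₀ ^ d) → Inc v a b β₁ τ D (fun d => x₀ ^ d) →
      ∀ (n : ℕ) (p q : ℝ), a ≤ p → p ≤ q → q ≤ b →
        |∫ x in p..q, Φ (win u k n x)| ≤ C / v n p := by
  obtain ⟨D, D₀, τ, C, hτ, hC, hpair⟩ := pair_bound hx hβ k S hS
  refine ⟨D, τ, (∑ h ∈ S, ‖z h‖) * C, hτ, by positivity, ?_⟩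
  intro u v a b β₁ β₂ hββ hF hR hI n p q hp hpq hq
  obtain ⟨hP, -⟩ := hpair u v a b β₁ β₂ hββ hF hR hI
  have hsub : uIcc p q ⊆ Icc a b := by
    rw [uIcc_of_le hpq]; exact Icc_subset_Icc hp hq
  have e1 : ((∫ x in p..q, Φ (win u k n x) : ℝ) : ℂ)
      = ∑ h ∈ S, z h * ∫ x in p..q, ex (lin h u n x) := by
    have hIn : ∀ h ∈ S, IntervalIntegrable (fun x => z h * ex (lin h u n x)) volume p q :=
      fun h _ => (continuousOn_const.mul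
        (ex_cont.comp_continuousOn ((lin_cont hF h n).mono hsub))).intervalIntegrable
    rw [← intervalIntegral.integral_ofReal]
    simp only [phi_win hΦ]
    rw [intervalIntegral.integral_finsetSum hIn]
    apply Finset.sum_congr rfl
    intro h _
    rw [intervalIntegral.integral_const_mul]
  have e2 : |∫ x in p..q, Φ (win u k n x)| = ‖((∫ x in p..q, Φ (win u k n x) : ℝ) : ℂ)‖ := by
    rw [Complex.norm_real, Real.norm_eq_abs]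
  rw [e2, e1, mul_div_assoc, Finset.sum_mul]
  refine (norm_sum_le _ _).trans (Finset.sum_le_sum fun h hh => ?_)
  rw [norm_mul]
  exact mul_le_mul_of_nonneg_left (hP h hh n p q hp hpq hq) (norm_nonneg _)

theorem obs_win {x₀ β : ℝ} (hx : Transcendental ℤ x₀) (hβ : 1 < β) (k : ℕ)
    (Φ : (Fin k → ℝ) → ℝ) (S : Finset (Fin k → ℤ)) (z : (Fin k → ℤ) → ℂ) (hS : 0 ∉ S)
    (hΦ : TrigP k Φ S z) (hbd : ∀ t, |Φ t| ≤ 1) :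
    ∃ (D : ℕ) (τ O : ℝ), 0 < τ ∧ 1 ≤ O ∧ ∀ (u v : ℕ → ℝ → ℝ) (a b β₁ β₂ : ℝ), β ≤ β₁ →
      Fam u v a b β₁ β₂ → Ratio v a b τ D (fun d => x₀ ^ d) → Inc v a b β₁ τ D (fun d => x₀ ^ d) →
      Obs u a b (fun n x => Φ (win u k n x)) (MvG fun n x => Φ (win u k n x)) O := by
  obtain ⟨D, τ, C, hτ, hC, hint⟩ := int_win hx hβ k Φ S z hS hΦ
  obtain ⟨K, hK, hlip⟩ := Pool.Agent.Helper41.KW.win_lip hΦ
  obtain ⟨O, hO, hmean⟩ := Pool.Agent.Helper41.KW.mean_series hβ hC hK k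
  refine ⟨D, τ, O, hτ, hO, ?_⟩
  intro u v a b β₁ β₂ hββ hF hR hI
  obtain ⟨hc, hl⟩ := hlip u v a b β₁ β₂ hF
  obtain ⟨h1, h2⟩ := hmean u v a b β₁ β₂ hββ hF (fun n x => Φ (win u k n x)) (fun n x _ => hbd _)
    hc (hint u v a b β₁ β₂ hββ hF hR hI) hl
  exact ⟨fun n x _ => hbd _, hc, h1, h2⟩

theorem obs_weaken {u : ℕ → ℝ → ℝ} {a b : ℝ} {X : ℕ → ℝ → ℝ} {M : ℝ → ℝ → ℝ} {O O' : ℝ}
    (h : Obs u a b X M O) (hO : O ≤ O') : Obs u a b X M O' :=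
  ⟨h.bd, h.cont, h.add, fun n p q h1 h2 h3 h4 h5 x hx => (h.osc n p q h1 h2 h3 h4 h5 x hx).trans hO⟩

theorem sig2_eq {k : ℕ} {Φ : (Fin k → ℝ) → ℝ} {S : Finset (Fin k → ℤ)} {z : (Fin k → ℤ) → ℂ}
    (hΦ : TrigP k Φ S z) :
    (sig2 k Φ : ℂ) = ∑ d ∈ Finset.range k, (if d = 0 then 1 else 2) * rhoA S z d := by
  unfold sig2
  rw [Finset.sum_range, Complex.ofReal_sum]
  apply Finset.sum_congr rfl
  intro d _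
  rw [Complex.ofReal_mul, rho_eq hΦ d]
  congr 1
  by_cases h : (d : ℕ) = 0
  · simp [h]
  · simp [h]

/-- sums along windows -/
noncomputable def SW (k : ℕ) (Φ : (Fin k → ℝ) → ℝ) (U : ℕ → ℝ → ℝ) (N : ℕ) (x : ℝ) : ℝ :=
  ∑ n ∈ Finset.range N, Φ (win U k n x)

theorem SW_shift (k : ℕ) (Φ : (Fin k → ℝ) → ℝ) (U : ℕ → ℝ → ℝ) (n₀ N : ℕ) (x : ℝ) :
    SW k Φ U (n₀ + N) x = SW k Φ U n₀ x + SW k Φ (fun n => U (n + n₀)) N x := by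
  unfold SW
  rw [Finset.sum_range_add]
  congr 1
  refine Finset.sum_congr rfl fun n _ => ?_
  congr 1
  funext i
  simp only [win]
  congr 1
  omega

theorem SW_bd {k : ℕ} {Φ : (Fin k → ℝ) → ℝ} (hΦ : ∀ t, |Φ t| ≤ 1) (U : ℕ → ℝ → ℝ) (N : ℕ) (x : ℝ) :
    |SW k Φ U N x| ≤ N := by
  unfold SW
  refine (Finset.abs_sum_le_sum_abs _ _).trans ((Finset.sum_le_sum fun n _ => hΦ _).trans ?_)
  simp

/-- upper bound -/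
theorem loc_upper_win {x₀ β ε : ℝ} (hx : Transcendental ℤ x₀) (hβ : 1 < β) (k : ℕ)
    (Φ : (Fin k → ℝ) → ℝ) (S : Finset (Fin k → ℤ)) (z : (Fin k → ℤ) → ℂ) (hS : 0 ∉ S)
    (hΦ : TrigP k Φ S z) (hbd : ∀ t, |Φ t| ≤ 1) {s : ℝ} (hs : sig2 k Φ = s) (hs0 : 0 < s) (hs1 : s ≤ 1)
    (hε : 0 < ε) (hε1 : ε ≤ 1) :
    ∃ (D : ℕ) (τ δ₀ : ℝ), 0 < τ ∧ 0 < δ₀ ∧ δ₀ ≤ 1 ∧ ∀ m : ℝ, 0 < m → m ≤ δ₀ → ∀ (U : ℕ → ℝ → ℝ) (G : Set ℝ)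
      (β₁ β₂ : ℝ), β ≤ β₁ → LocFamI U G (fun d => x₀ ^ d) D τ β₁ β₂ → ∀ m' : ℝ, m < m' →
      dimH {x | x ∈ G ∧ ∃ᶠ N : ℕ in atTop, m' * N ≤ SW k Φ U N x} ≤
        ENNReal.ofReal (1 - (1 - ε) * m ^ 2 / (2 * s * Real.log β₂)) := by
  obtain ⟨D₁, τ₁, O, hτ₁, hO, hobs⟩ := obs_win hx hβ k Φ S z hS hΦ hbd
  obtain ⟨ε', hε', hdev⟩ := dev_upper_gen (K₀ := 1) hO hβ le_rfl hs0 hs1 hε hε1
  obtain ⟨D₂, τ₂, L₀, hτ₂, hbv⟩ := block_win hx hβ k Φ S z hS hΦ (sig2 k Φ) (sig2_eq hΦ) hε'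
  obtain ⟨δ₀, hδ₀, hδ₀1, hdev'⟩ := hdev L₀
  refine ⟨max D₁ D₂, min τ₁ τ₂, δ₀, lt_min hτ₁ hτ₂, hδ₀, hδ₀1, fun m hm hmδ U G β₁ β₂ hββ hloc m' hm' => ?_⟩
  obtain ⟨L, hL, hfam⟩ := hdev' m hm hmδ
  refine Pool.Agent.Helper69.CD.dimH_le_of_local _ _ fun x hx' => ?_
  obtain ⟨n₀, v, a, b, hxab, -, hF, hR, hI⟩ := hloc x hx'.1 univ univ_mem
  refine ⟨Ioo a b, Ioo_mem_nhds hxab.1 hxab.2, ?_⟩
  have ho := hobs _ v a b β₁ β₂ hββ hF (ratio_mono hF hR (min_le_left _ _) (le_max_left _ _))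
    (inc_mono hF hI (min_le_left _ _) (le_max_left _ _))
  have hlog : 0 ≤ Real.log (1 / m) := Real.log_nonneg (by
    rw [le_div_iff₀ hm]; linarith [hmδ.trans hδ₀1])
  have hb := hbv _ v a b β₁ β₂ hββ hF (ratio_mono hF hR (min_le_right _ _) (le_max_right _ _))
    (inc_mono hF hI (min_le_right _ _) (le_max_right _ _)) L hL
  rw [hs] at hb
  refine le_trans (dimH_mono ?_) (hfam _ v a b β₁ β₂ hββ hF _ _ s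
    (obs_weaken ho (by nlinarith)) hs0.le le_rfl hb)
  rintro y ⟨⟨_, hfr⟩, hy⟩
  refine ⟨Ioo_subset_Icc_self hy, ?_⟩
  rw [frequently_atTop] at hfr ⊢
  intro N₀
  obtain ⟨N₁, hN₁⟩ := exists_nat_gt (2 * n₀ / (m' - m))
  have hmm : 0 < m' - m := by linarith
  rw [div_lt_iff₀ hmm] at hN₁
  obtain ⟨N, hN, hSN⟩ := hfr (max (N₀ + n₀) (N₁ + n₀))
  obtain ⟨M, rfl⟩ : ∃ M, N = n₀ + M := ⟨N - n₀, by omega⟩
  have h1 : N₀ ≤ M := by omega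
  have h2 : (N₁ : ℝ) ≤ M := by
    have : N₁ ≤ M := by omega
    exact_mod_cast this
  refine ⟨M, h1, ?_⟩
  rw [SW_shift] at hSN
  have h3 := (abs_le.1 (SW_bd hbd U n₀ y)).2
  push_cast at hSN
  have h4 : (0 : ℝ) ≤ n₀ := Nat.cast_nonneg _
  have h5 : SX (fun n x => Φ (win (fun n => U (n + n₀)) k n x)) M y
      = SW k Φ (fun n => U (n + n₀)) M y := rfl
  rw [h5]
  nlinarith

theorem loc_lower_aux_win {m m' : ℝ} (hmm : m' < m) (hm : 0 < m) {U : ℕ → ℝ → ℝ} {k : ℕ}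
    {Φ : (Fin k → ℝ) → ℝ} (hΦ : ∀ t, |Φ t| ≤ 1) {n₀ : ℕ} {y : ℝ}
    (hy : ∀ᶠ N : ℕ in atTop, m * N ≤ SW k Φ (fun n => U (n + n₀)) N y) :
    ∀ᶠ N : ℕ in atTop, m' * N ≤ SW k Φ U N y := by
  rw [eventually_atTop] at hy ⊢
  obtain ⟨N₀, hN₀⟩ := hy
  obtain ⟨N₁, hN₁⟩ := exists_nat_gt ((1 + m) * n₀ / (m - m'))
  have hmm' : 0 < m - m' := by linarith
  rw [div_lt_iff₀ hmm'] at hN₁
  refine ⟨max (N₀ + n₀) (N₁ + n₀), fun N hN => ?_⟩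
  obtain ⟨M, rfl⟩ : ∃ M, N = n₀ + M := ⟨N - n₀, by omega⟩
  have h1 : N₀ ≤ M := by omega
  have h2 : (N₁ : ℝ) ≤ M := by
    have : N₁ ≤ M := by omega
    exact_mod_cast this
  have h3 := hN₀ M h1
  have h4 := (abs_le.1 (SW_bd hΦ U n₀ y)).1
  rw [SW_shift]
  push_cast
  have h5 : (0 : ℝ) ≤ n₀ := Nat.cast_nonneg _
  have h6 : m' * n₀ ≤ m * n₀ := by nlinarith
  nlinarith

/-- lower bound -/
theorem loc_lower_win {x₀ β ε : ℝ} (hx : Transcendental ℤ x₀) (hβ : 1 < β) (k : ℕ)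
    (Φ : (Fin k → ℝ) → ℝ) (S : Finset (Fin k → ℤ)) (z : (Fin k → ℤ) → ℂ) (hS : 0 ∉ S)
    (hΦ : TrigP k Φ S z) (hbd : ∀ t, |Φ t| ≤ 1) {s : ℝ} (hs : sig2 k Φ = s) (hs0 : 0 < s) (hs1 : s ≤ 1)
    (hε : 0 < ε) (hε1 : ε ≤ 1) :
    ∃ (D : ℕ) (τ δ₀ : ℝ), 0 < τ ∧ 0 < δ₀ ∧ δ₀ ≤ 1 ∧ ∀ m : ℝ, 0 < m → m ≤ δ₀ → ∀ (U : ℕ → ℝ → ℝ) (G : Set ℝ)
      (β₁ β₂ : ℝ), β ≤ β₁ → LocFamI U G (fun d => x₀ ^ d) D τ β₁ β₂ → ∀ m' : ℝ, m' < m →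
      ∀ O : Set ℝ, IsOpen O → O.Nonempty → O ⊆ G →
      ENNReal.ofReal (1 - (1 + ε) * m ^ 2 / (2 * s * Real.log β₁)) ≤
      dimH {x | x ∈ O ∧ ∀ᶠ N : ℕ in atTop, m' * N ≤ SW k Φ U N x} := by
  obtain ⟨D₁, τ₁, O', hτ₁, hO, hobs⟩ := obs_win hx hβ k Φ S z hS hΦ hbd
  obtain ⟨ε', hε', hdev⟩ := dev_lower_gen (K₀ := 1) hO le_rfl hs0 hs1 hε hε1
  obtain ⟨D₂, τ₂, L₀, hτ₂, hbv⟩ := block_win hx hβ k Φ S z hS hΦ (sig2 k Φ) (sig2_eq hΦ) hε'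
  obtain ⟨δ₀, hδ₀, hδ₀1, hdev'⟩ := hdev L₀
  refine ⟨max D₁ D₂, min τ₁ τ₂, δ₀, lt_min hτ₁ hτ₂, hδ₀, hδ₀1,
    fun m hm hmδ U G β₁ β₂ hββ hloc m' hm' O hO' hne hOG => ?_⟩
  obtain ⟨L, hL, hfam⟩ := hdev' m hm hmδ
  obtain ⟨x, hx'⟩ := hne
  obtain ⟨n₀, v, a, b, hxab, hsub, hF, hR, hI⟩ := hloc x (hOG hx') O (hO'.mem_nhds hx')
  have ho := hobs _ v a b β₁ β₂ hββ hF (ratio_mono hF hR (min_le_left _ _) (le_max_left _ _))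
    (inc_mono hF hI (min_le_left _ _) (le_max_left _ _))
  have hlog : 0 ≤ Real.log (1 / m) := Real.log_nonneg (by
    rw [le_div_iff₀ hm]; linarith [hmδ.trans hδ₀1])
  have hb := hbv _ v a b β₁ β₂ hββ hF (ratio_mono hF hR (min_le_right _ _) (le_max_right _ _))
    (inc_mono hF hI (min_le_right _ _) (le_max_right _ _)) L hL
  rw [hs] at hb
  refine (hfam _ v a b β₁ β₂ hF _ _ s (obs_weaken ho (by nlinarith)) le_rfl hs1 hb).trans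
    (dimH_mono ?_)
  rintro y ⟨hy, hev⟩
  exact ⟨hsub hy, loc_lower_aux_win hm' hm hbd hev⟩

end Pool.Agent.Helper44.KW
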