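import Pool.Agent.Helper44.KW.Osc

/-! Combinations of the members of a family. -/

set_option autoImplicit false

namespace Pool.Agent.Helper44.KW

open MeasureTheory Set Filter Topology Pool.Agent.Helper78.KD

/-- monotone and nonnegative -/
def Good (a b : ℝ) (F : ℝ → ℝ) : Prop := MonotoneOn F (Icc a b) ∧ ∀ x ∈ Icc a b, 0 ≤ F x

theorem Good.add {a b : ℝ} {F G : ℝ → ℝ} (hF : Good a b F) (hG : Good a b G) :
    Good a b fun x => F x + G x :=
  ⟨fun _ hx _ hy h => add_le_add (hF.1 hx hy h) (hG.1 hx hy h),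
    fun x hx => add_nonneg (hF.2 x hx) (hG.2 x hx)⟩

theorem Good.smul {a b : ℝ} {F : ℝ → ℝ} (hF : Good a b F) {c : ℝ} (hc : 0 ≤ c) :
    Good a b fun x => c * F x :=
  ⟨fun _ hx _ hy h => mul_le_mul_of_nonneg_left (hF.1 hx hy h) hc,
    fun x hx => mul_nonneg hc (hF.2 x hx)⟩

theorem Good.congr {a b : ℝ} {F G : ℝ → ℝ} (hF : Good a b F) (h : ∀ x, F x = G x) :
    Good a b G := by
  have : F = G := funext h
  rw [← this]; exact hF

theorem Good.zero {a b : ℝ} : Good a b fun _ => 0 :=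
  ⟨fun _ _ _ _ _ => le_rfl, fun _ _ => le_rfl⟩

theorem Good.sum {a b : ℝ} {ι : Type*} (s : Finset ι) (F : ι → ℝ → ℝ)
    (h : ∀ i ∈ s, Good a b (F i)) : Good a b fun x => ∑ i ∈ s, F i x := by
  classical
  induction s using Finset.induction_on with
  | empty => simpa using Good.zero
  | insert i s hi ih =>
    have h1 := (h i (Finset.mem_insert_self i s)).add
      (ih fun j hj => h j (Finset.mem_insert_of_mem hj))
    refine h1.congr fun x => ?_
    rw [Finset.sum_insert hi]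

section

variable {u v : ℕ → ℝ → ℝ} {a b β₁ β₂ τ : ℝ} {D : ℕ} {γ : ℕ → ℝ}

theorem good_v (hF : Fam u v a b β₁ β₂) (n : ℕ) : Good a b (v n) :=
  ⟨hF.mono n, fun x hx => (hF.pos n x hx).le⟩

theorem good_lo (hF : Fam u v a b β₁ β₂) (hR : Ratio v a b τ D γ) (hI : Inc v a b β₁ τ D γ)
    (h0 : γ 0 = 1) (hτ : 0 ≤ τ) (n d : ℕ) (hd : d ≤ D) :
    Good a b fun x => v (n + d) x - (γ d - τ) * v n x := by
  rcases Nat.eq_zero_or_pos d with h | h
  · subst h
    refine ((good_v hF n).smul hτ).congr fun x => ?_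
    simp only [add_zero, h0]; ring
  · refine ⟨hI.lo d h hd n, fun x hx => ?_⟩
    have := (abs_le.1 (hR d h hd n x hx)).1
    simp only
    linarith

theorem good_up (hF : Fam u v a b β₁ β₂) (hR : Ratio v a b τ D γ) (hI : Inc v a b β₁ τ D γ)
    (h0 : γ 0 = 1) (hτ : 0 ≤ τ) (n d : ℕ) (hd : d ≤ D) :
    Good a b fun x => (γ d + τ) * v n x - v (n + d) x := by
  rcases Nat.eq_zero_or_pos d with h | h
  · subst h
    refine ((good_v hF n).smul hτ).congr fun x => ?_
    simp only [add_zero, h0]; ring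
  · refine ⟨hI.up d h hd n, fun x hx => ?_⟩
    have := (abs_le.1 (hR d h hd n x hx)).2
    simp only
    linarith

theorem good_grow (hF : Fam u v a b β₁ β₂) (hI : Inc v a b β₁ τ D γ) (n j : ℕ) :
    Good a b fun x => v (n + j) x - β₁ ^ j * v n x := by
  induction j with
  | zero =>
    refine (Good.zero (a := a) (b := b)).congr fun x => ?_
    simp
  | succ j ih =>
    have hβ : 0 ≤ β₁ := by linarith [hF.hβ]
    have h1 : Good a b fun x => v (n + j + 1) x - β₁ * v (n + j) x :=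
      ⟨hI.grow (n + j), fun x hx => by have := (hF.growth (n + j) x hx).1; simp only; linarith⟩
    refine (h1.add (ih.smul hβ)).congr fun x => ?_
    have : n + (j + 1) = n + j + 1 := by ring
    rw [this, pow_succ]; ring

/-- the basic decomposition of a combination with small lags -/
theorem good_comb (hF : Fam u v a b β₁ β₂) (hR : Ratio v a b τ D γ) (hI : Inc v a b β₁ τ D γ)
    (h0 : γ 0 = 1) (hτ : 0 ≤ τ) (g : ℕ → ℤ) (N : ℕ) (hN : N ≤ D + 1) (n : ℕ) :
    Good a b fun x => ∑ m ∈ Finset.range N, (g m : ℝ) * v (n + m) x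
      - (∑ m ∈ Finset.range N, (g m : ℝ) * γ m - τ * ∑ m ∈ Finset.range N, |(g m : ℝ)|) * v n x := by
  have h1 : Good a b fun x => ∑ m ∈ Finset.range N,
      ((g m : ℝ) * v (n + m) x - (g m : ℝ) * γ m * v n x + τ * |(g m : ℝ)| * v n x) := by
    apply Good.sum
    intro m hm
    have hm' : m ≤ D := by have := Finset.mem_range.1 hm; omega
    rcases le_total 0 (g m : ℝ) with h | h
    · refine ((good_lo hF hR hI h0 hτ n m hm').smul h).congr fun x => ?_
      rw [abs_of_nonneg h]; ring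
    · have h' : 0 ≤ -(g m : ℝ) := by linarith
      refine ((good_up hF hR hI h0 hτ n m hm').smul h').congr fun x => ?_
      rw [abs_of_nonpos h]; ring
  refine h1.congr fun x => ?_
  rw [Finset.sum_add_distrib, Finset.sum_sub_distrib, sub_mul, Finset.sum_mul, Finset.mul_sum,
    Finset.sum_mul]
  ring

theorem comb_deriv (hF : Fam u v a b β₁ β₂) (g : ℕ → ℤ) (N n : ℕ) {x : ℝ} (hx : x ∈ Icc a b) :
    HasDerivAt (fun x => ∑ m ∈ Finset.range N, (g m : ℝ) * u (n + m) x)
      (∑ m ∈ Finset.range N, (g m : ℝ) * v (n + m) x) x := by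
  apply HasDerivAt.fun_sum
  intro m _
  exact (hF.deriv (n + m) x hx).const_mul _

theorem comb_cont (hF : Fam u v a b β₁ β₂) (g : ℕ → ℤ) (N n : ℕ) :
    ContinuousOn (fun x => ∑ m ∈ Finset.range N, (g m : ℝ) * v (n + m) x) (Icc a b) :=
  continuousOn_finsetSum _ fun m _ => continuousOn_const.mul (hF.cont (n + m))

/-- oscillation of a function whose derivative dominates `c * w`, up to the sign -/
theorem osc_dom {a b p q c : ℝ} {f f' w : ℝ → ℝ} (hp : a ≤ p) (hpq : p ≤ q) (hq : q ≤ b)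
    (hd : ∀ x ∈ Icc a b, HasDerivAt f (f' x) x) (hc : ContinuousOn f' (Icc a b))
    (hw : ∀ x ∈ Icc a b, 0 < w x) (hwm : MonotoneOn w (Icc a b)) (hc0 : 0 < c)
    (h : (Good a b fun x => f' x - c * w x) ∨ (Good a b fun x => -f' x - c * w x)) :
    ‖∫ x in p..q, ex (f x)‖ ≤ 1 / (c * w p) := by
  have hsub : Icc p q ⊆ Icc a b := Icc_subset_Icc hp hq
  have hpI : p ∈ Icc a b := hsub ⟨le_rfl, hpq⟩
  have hwp := hw p hpI
  rcases h with h | h
  · have h1 : c * w p ≤ f' p := by have := h.2 p hpI; simp only at this; linarith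
    have hm : MonotoneOn f' (Icc p q) := by
      intro x hx y hy hxy
      have e1 := h.1 (hsub hx) (hsub hy) hxy
      have e2 := mul_le_mul_of_nonneg_left (hwm (hsub hx) (hsub hy) hxy) hc0.le
      simp only at e1
      linarith
    have h2 := osc hpq (fun x hx => hd x (hsub hx)) (hc.mono hsub) hm
      (lt_of_lt_of_le (by positivity) h1)
    exact h2.trans (one_div_le_one_div_of_le (by positivity) h1)
  · have h1 : c * w p ≤ -f' p := by have := h.2 p hpI; simp only at this; linarith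
    have hm : AntitoneOn f' (Icc p q) := by
      intro x hx y hy hxy
      have e1 := h.1 (hsub hx) (hsub hy) hxy
      have e2 := mul_le_mul_of_nonneg_left (hwm (hsub hx) (hsub hy) hxy) hc0.le
      simp only at e1
      linarith
    have h2 := osc_neg hpq (fun x hx => hd x (hsub hx)) (hc.mono hsub) hm
      (by have : 0 < c * w p := by positivity
          linarith)
    exact h2.trans (one_div_le_one_div_of_le (by positivity) h1)

/-- oscillation of a combination with small lags -/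
theorem osc_comb (hF : Fam u v a b β₁ β₂) (hR : Ratio v a b τ D γ) (hI : Inc v a b β₁ τ D γ)
    (h0 : γ 0 = 1) (hτ : 0 ≤ τ) (g : ℕ → ℤ) (N : ℕ) (hN : N ≤ D + 1) (n : ℕ) {c : ℝ} (hc : 0 < c)
    (hg : c ≤ |∑ m ∈ Finset.range N, (g m : ℝ) * γ m| - τ * ∑ m ∈ Finset.range N, |(g m : ℝ)|)
    {p q : ℝ} (hp : a ≤ p) (hpq : p ≤ q) (hq : q ≤ b) :
    ‖∫ x in p..q, ex (∑ m ∈ Finset.range N, (g m : ℝ) * u (n + m) x)‖ ≤ 1 / (c * v n p) := by
  apply osc_dom hp hpq hq (fun x hx => comb_deriv hF g N n hx) (comb_cont hF g N n)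
    (hF.pos n) (hF.mono n) hc
  rcases le_total 0 (∑ m ∈ Finset.range N, (g m : ℝ) * γ m) with h | h
  · left
    rw [abs_of_nonneg h] at hg
    have h1 := good_comb hF hR hI h0 hτ g N hN n
    have h2 : 0 ≤ (∑ m ∈ Finset.range N, (g m : ℝ) * γ m
      - τ * ∑ m ∈ Finset.range N, |(g m : ℝ)|) - c := by linarith
    refine (h1.add ((good_v hF n).smul h2)).congr fun x => ?_
    ring
  · right
    rw [abs_of_nonpos h] at hg
    have h1 := good_comb hF hR hI h0 hτ (fun m => -g m) N hN n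
    have h2 : 0 ≤ (-∑ m ∈ Finset.range N, (g m : ℝ) * γ m
      - τ * ∑ m ∈ Finset.range N, |(g m : ℝ)|) - c := by linarith
    refine (h1.add ((good_v hF n).smul h2)).congr fun x => ?_
    have e1 : ∑ m ∈ Finset.range N, ((-g m : ℤ) : ℝ) * v (n + m) x
        = -∑ m ∈ Finset.range N, (g m : ℝ) * v (n + m) x := by
      rw [← Finset.sum_neg_distrib]
      exact Finset.sum_congr rfl fun m _ => by push_cast; ring
    have e2 : ∑ m ∈ Finset.range N, ((-g m : ℤ) : ℝ) * γ m
        = -∑ m ∈ Finset.range N, (g m : ℝ) * γ m := by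
      rw [← Finset.sum_neg_distrib]
      exact Finset.sum_congr rfl fun m _ => by push_cast; ring
    have e3 : ∑ m ∈ Finset.range N, |((-g m : ℤ) : ℝ)| = ∑ m ∈ Finset.range N, |(g m : ℝ)| :=
      Finset.sum_congr rfl fun m _ => by push_cast; rw [abs_neg]
    rw [e1, e2, e3]
    ring

/-- domination at a large lag -/
theorem good_far (hF : Fam u v a b β₁ β₂) (hI : Inc v a b β₁ τ D γ) {k : ℕ} (h : ℕ → ℤ)
    (n d : ℕ) (hkd : k ≤ d) {c : ℝ}
    (hc : (∑ m ∈ Finset.range k, |(h m : ℝ)|) * (β₁⁻¹) ^ (d - k) ≤ c) :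
    Good a b fun x => ∑ m ∈ Finset.range k, (h m : ℝ) * v (n + m) x + c * v (n + d) x := by
  have hβ1 : 1 < β₁ := hF.hβ
  have hβ0 : 0 < β₁ := by linarith
  have h1 : Good a b fun x => ∑ m ∈ Finset.range k,
      ((h m : ℝ) * v (n + m) x + |(h m : ℝ)| * β₁⁻¹ ^ (d - m) * v (n + d) x) := by
    apply Good.sum
    intro m hm
    have hm' := Finset.mem_range.1 hm
    rcases le_total 0 (h m : ℝ) with h2 | h2
    · exact ((good_v hF (n + m)).smul h2).add
        (((good_v hF (n + d)).smul (by positivity : (0 : ℝ) ≤ |(h m : ℝ)| * β₁⁻¹ ^ (d - m))))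
    · have h3 := good_grow hF hI (n + m) (d - m)
      have e1 : n + m + (d - m) = n + d := by omega
      rw [e1] at h3
      refine (h3.smul (by positivity : (0 : ℝ) ≤ |(h m : ℝ)| * β₁⁻¹ ^ (d - m))).congr fun x => ?_
      have e2 : β₁⁻¹ ^ (d - m) * β₁ ^ (d - m) = 1 := by
        rw [← mul_pow, inv_mul_cancel₀ hβ0.ne', one_pow]
      have e3 : |(h m : ℝ)| = -(h m : ℝ) := abs_of_nonpos h2
      calc |(h m : ℝ)| * β₁⁻¹ ^ (d - m) * (v (n + d) x - β₁ ^ (d - m) * v (n + m) x)
          = |(h m : ℝ)| * β₁⁻¹ ^ (d - m) * v (n + d) x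
            - |(h m : ℝ)| * (β₁⁻¹ ^ (d - m) * β₁ ^ (d - m)) * v (n + m) x := by ring
        _ = (h m : ℝ) * v (n + m) x + |(h m : ℝ)| * β₁⁻¹ ^ (d - m) * v (n + d) x := by
            rw [e2, e3]; ring
  have h4 : ∑ m ∈ Finset.range k, |(h m : ℝ)| * β₁⁻¹ ^ (d - m) ≤ c := by
    refine le_trans ?_ hc
    rw [Finset.sum_mul]
    apply Finset.sum_le_sum
    intro m hm
    have hm' := Finset.mem_range.1 hm
    apply mul_le_mul_of_nonneg_left _ (abs_nonneg _)
    exact pow_le_pow_of_le_one (by positivity) (inv_le_one_of_one_le₀ hβ1.le) (by omega)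
  refine (h1.add ((good_v hF (n + d)).smul (by linarith :
    0 ≤ c - ∑ m ∈ Finset.range k, |(h m : ℝ)| * β₁⁻¹ ^ (d - m)))).congr fun x => ?_
  rw [Finset.sum_add_distrib, ← Finset.sum_mul]
  ring

end

end Pool.Agent.Helper44.KW
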