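import Pool.Agent.Helper44.KW.Fin

/-! Windows: the statement for families near a transcendental base. -/

set_option autoImplicit false

namespace Pool.Agent.Helper44.KW

open MeasureTheory Set Filter Topology Pool.Agent.Helper78.KD

section scale

variable {k : ℕ} {Φ : (Fin k → ℝ) → ℝ} {S : Finset (Fin k → ℤ)} {z : (Fin k → ℤ) → ℂ}

theorem trigP_div (hΦ : TrigP k Φ S z) (B : ℝ) : TrigP k (fun t => Φ t / B) S (fun h => z h / B) := by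
  intro t
  rw [Complex.ofReal_div, hΦ t, Finset.sum_div]
  refine Finset.sum_congr rfl fun h _ => ?_
  ring

theorem trigP_bd (hΦ : TrigP k Φ S z) (t : Fin k → ℝ) : |Φ t| ≤ ∑ h ∈ S, ‖z h‖ := by
  have h1 : |Φ t| = ‖(Φ t : ℂ)‖ := by rw [Complex.norm_real, Real.norm_eq_abs]
  rw [h1, hΦ t]
  refine (norm_sum_le _ _).trans (Finset.sum_le_sum fun h _ => ?_)
  have h2 : ‖ex (∑ i, (h i : ℝ) * t i)‖ = 1 := by
    unfold ex
    have : (2 * Real.pi * ((∑ i, (h i : ℝ) * t i : ℝ) : ℂ) * Complex.I)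
        = ((2 * Real.pi * (∑ i, (h i : ℝ) * t i) : ℝ) : ℂ) * Complex.I := by push_cast; ring
    rw [this, Complex.norm_exp_ofReal_mul_I]
  rw [norm_mul, h2, mul_one]

theorem sig2_div (k : ℕ) (Φ : (Fin k → ℝ) → ℝ) (B : ℝ) : sig2 k (fun t => Φ t / B) = sig2 k Φ / B ^ 2 := by
  have h1 : ∀ d : Fin k, rho k (fun t => Φ t / B) d = rho k Φ d / B ^ 2 := by
    intro d
    unfold rho
    rw [← integral_div]
    congr 1
    funext t
    ring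
  unfold sig2
  rw [Finset.sum_div]
  refine Finset.sum_congr rfl fun d _ => ?_
  rw [h1 d]
  ring

theorem SW_div (k : ℕ) (Φ : (Fin k → ℝ) → ℝ) (B : ℝ) (U : ℕ → ℝ → ℝ) (N : ℕ) (x : ℝ) :
    SW k (fun t => Φ t / B) U N x = SW k Φ U N x / B := by
  unfold SW
  rw [Finset.sum_div]

end scale

theorem SW_bdd {k : ℕ} {Φ : (Fin k → ℝ) → ℝ} {B : ℝ} (hB : 0 < B) (hbd : ∀ t, |Φ t| ≤ B) (U : ℕ → ℝ → ℝ)
    (x : ℝ) (N : ℕ) : |SW k Φ U N x / N| ≤ B := by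
  rcases Nat.eq_zero_or_pos N with h | h
  · subst h; simp [hB.le]
  · unfold SW
    rw [abs_div, Nat.abs_cast, div_le_iff₀ (by exact_mod_cast h)]
    refine (Finset.abs_sum_le_sum_abs _ _).trans ((Finset.sum_le_sum fun n _ => hbd _).trans ?_)
    rw [Finset.sum_const, Finset.card_range, nsmul_eq_mul, mul_comm]

/-- upper bound for the means along windows -/
theorem win_upper {x₀ : ℝ} (hx₀ : 1 < x₀) (htr : Transcendental ℤ x₀) (k : ℕ) (Φ : (Fin k → ℝ) → ℝ)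
    (S : Finset (Fin k → ℤ)) (z : (Fin k → ℤ) → ℂ) (hS : 0 ∉ S) (hΦ : TrigP k Φ S z)
    {σ : ℝ} (hσ : sig2 k Φ = σ) (hσ0 : 0 < σ) {ε : ℝ} (hε : 0 < ε) (hε1 : ε ≤ 1) :
    ∃ (D : ℕ) (τ β₁ β₂ δ₀ : ℝ), 0 < τ ∧ 1 < β₁ ∧ β₁ < x₀ ∧ x₀ < β₂ ∧ 0 < δ₀ ∧ ∀ δ : ℝ, 0 < δ → δ ≤ δ₀ →
      ∀ (U : ℕ → ℝ → ℝ) (G : Set ℝ), LocFamI U G (fun d => x₀ ^ d) D τ β₁ β₂ →
      dimH {x | x ∈ G ∧ δ ≤ limsup (fun N : ℕ => SW k Φ U N x / N) atTop} ≤
        ENNReal.ofReal (1 - (1 - ε) / (2 * σ * Real.log x₀) * δ ^ 2) := by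
  set e := ε / 8 with he
  have he0 : 0 < e := by positivity
  have he1 : e ≤ 1 / 8 := by rw [he]; linarith
  have hlx := Real.log_pos hx₀
  set B := 1 + (∑ h ∈ S, ‖z h‖) + σ with hBdef
  have hz0 : 0 ≤ ∑ h ∈ S, ‖z h‖ := Finset.sum_nonneg fun h _ => norm_nonneg _
  have hB : 0 < B := by rw [hBdef]; linarith
  have hbd : ∀ t, |Φ t| ≤ B := fun t => (trigP_bd hΦ t).trans (by rw [hBdef]; linarith)
  have hbd1 : ∀ t, |Φ t / B| ≤ 1 := fun t => by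
    rw [abs_div, abs_of_pos hB, div_le_one hB]; exact hbd t
  have hs1 : σ / B ^ 2 ≤ 1 := by
    rw [div_le_one (by positivity)]
    have h1 : 1 ≤ B := by rw [hBdef]; linarith
    have h2 : σ ≤ B := by rw [hBdef]; linarith
    nlinarith
  obtain ⟨β₁, β₂, hb1, hb2, hb3, hb4, hb5⟩ := choose_bases hx₀ he0 (by linarith)
  obtain ⟨D, τ, δ₁, hτ, hδ₁, hδ₁1, hmain⟩ := loc_upper_win htr hb1 k (fun t => Φ t / B) S (fun h => z h / B) hS
    (trigP_div hΦ B) hbd1 (s := σ / B ^ 2) (by rw [sig2_div, hσ]) (by positivity) hs1 he0 (by linarith)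
  refine ⟨D, τ, β₁, β₂, δ₁ * B, hτ, hb1, hb2, hb3, by positivity, fun δ hδ hδδ U G hloc => ?_⟩
  set m := (1 - 2 * e) * (δ / B) with hm
  have h12 : 0 < 1 - 2 * e := by linarith
  have hm0 : 0 < m := by positivity
  have hδB : δ / B ≤ δ₁ := by rw [div_le_iff₀ hB]; exact hδδ
  have hδB0 : 0 < δ / B := by positivity
  have hmδ : m ≤ δ₁ := by rw [hm]; nlinarith
  have hfin := hmain m hm0 hmδ U G β₁ β₂ le_rfl hloc ((1 - e) * (δ / B)) (by rw [hm]; nlinarith)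
  refine (dimH_mono ?_).trans (hfin.trans (ENNReal.ofReal_le_ofReal ?_))
  · rintro x ⟨hxG, hx⟩
    refine ⟨hxG, ?_⟩
    have h1 := freq_of_limsup (δ' := (1 - e) * δ) (SW_bdd hB hbd U x) hx (by nlinarith)
    refine (h1.and_eventually (eventually_ge_atTop 1)).mono ?_
    rintro N ⟨hN, hN1⟩
    have hNpos : (0 : ℝ) < N := by exact_mod_cast hN1
    rw [SW_div, le_div_iff₀ hB]
    rw [lt_div_iff₀ hNpos] at hN
    have h2 : (1 - e) * (δ / B) * N * B = (1 - e) * δ * N := by field_simp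
    rw [h2]
    exact hN.le
  · have hlb : 0 < Real.log β₂ := Real.log_pos (by linarith)
    have h1 : (1 - e) * m ^ 2 / (2 * (σ / B ^ 2) * Real.log β₂)
        = (1 - e) * (1 - 2 * e) ^ 2 / (2 * σ * Real.log β₂) * δ ^ 2 := by
      rw [hm]; field_simp
    have h2 : (1 - ε) / (2 * σ * Real.log x₀) * δ ^ 2
        ≤ (1 - e) * (1 - 2 * e) ^ 2 / (2 * σ * Real.log β₂) * δ ^ 2 := by
      apply mul_le_mul_of_nonneg_right _ (sq_nonneg δ)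
      rw [div_le_div_iff₀ (by positivity) (by positivity)]
      have h3 : ε = 8 * e := by rw [he]; ring
      have h4 : (1 - ε) * (2 * σ * Real.log β₂) ≤ (1 - ε) * (2 * σ * ((1 + e) * Real.log x₀)) := by
        apply mul_le_mul_of_nonneg_left _ (by linarith)
        gcongr
      have h5 : (1 - ε) * (1 + e) ≤ (1 - e) * (1 - 2 * e) ^ 2 := by
        rw [h3]
        nlinarith [mul_pos he0 he0, mul_pos (mul_pos he0 he0) he0]
      calc (1 - ε) * (2 * σ * Real.log β₂) ≤ ((1 - ε) * (1 + e)) * (2 * σ * Real.log x₀) := by linarith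
        _ ≤ _ := by gcongr
    rw [h1]
    linarith

/-- lower bound for the means along windows -/
theorem win_lower {x₀ : ℝ} (hx₀ : 1 < x₀) (htr : Transcendental ℤ x₀) (k : ℕ) (Φ : (Fin k → ℝ) → ℝ)
    (S : Finset (Fin k → ℤ)) (z : (Fin k → ℤ) → ℂ) (hS : 0 ∉ S) (hΦ : TrigP k Φ S z)
    {σ : ℝ} (hσ : sig2 k Φ = σ) (hσ0 : 0 < σ) {ε : ℝ} (hε : 0 < ε) (hε1 : ε ≤ 1) :
    ∃ (D : ℕ) (τ β₁ β₂ δ₀ : ℝ), 0 < τ ∧ 1 < β₁ ∧ β₁ < x₀ ∧ x₀ < β₂ ∧ 0 < δ₀ ∧ ∀ δ : ℝ, 0 < δ → δ ≤ δ₀ →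
      ∀ (U : ℕ → ℝ → ℝ) (G : Set ℝ), LocFamI U G (fun d => x₀ ^ d) D τ β₁ β₂ →
      ∀ O : Set ℝ, IsOpen O → O.Nonempty → O ⊆ G →
      ENNReal.ofReal (1 - (1 + ε) / (2 * σ * Real.log x₀) * δ ^ 2) ≤
      dimH {x | x ∈ O ∧ δ ≤ liminf (fun N : ℕ => SW k Φ U N x / N) atTop} := by
  set e := ε / 8 with he
  have he0 : 0 < e := by positivity
  have he1 : e ≤ 1 / 8 := by rw [he]; linarith
  have hlx := Real.log_pos hx₀
  set B := 1 + (∑ h ∈ S, ‖z h‖) + σ with hBdef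
  have hz0 : 0 ≤ ∑ h ∈ S, ‖z h‖ := Finset.sum_nonneg fun h _ => norm_nonneg _
  have hB : 0 < B := by rw [hBdef]; linarith
  have hbd : ∀ t, |Φ t| ≤ B := fun t => (trigP_bd hΦ t).trans (by rw [hBdef]; linarith)
  have hbd1 : ∀ t, |Φ t / B| ≤ 1 := fun t => by
    rw [abs_div, abs_of_pos hB, div_le_one hB]; exact hbd t
  have hs1 : σ / B ^ 2 ≤ 1 := by
    rw [div_le_one (by positivity)]
    have h1 : 1 ≤ B := by rw [hBdef]; linarith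
    have h2 : σ ≤ B := by rw [hBdef]; linarith
    nlinarith
  obtain ⟨β₁, β₂, hb1, hb2, hb3, hb4, hb5⟩ := choose_bases hx₀ he0 (by linarith)
  obtain ⟨D, τ, δ₁, hτ, hδ₁, hδ₁1, hmain⟩ := loc_lower_win htr hb1 k (fun t => Φ t / B) S (fun h => z h / B) hS
    (trigP_div hΦ B) hbd1 (s := σ / B ^ 2) (by rw [sig2_div, hσ]) (by positivity) hs1 he0 (by linarith)
  refine ⟨D, τ, β₁, β₂, δ₁ * B / 2, hτ, hb1, hb2, hb3, by positivity, fun δ hδ hδδ U G hloc O hO hne hOG => ?_⟩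
  set m := (1 + e) * (δ / B) with hm
  have hm0 : 0 < m := by positivity
  have hδB : δ / B ≤ δ₁ / 2 := by rw [div_le_iff₀ hB]; linarith
  have hδB0 : 0 < δ / B := by positivity
  have hmδ : m ≤ δ₁ := by rw [hm]; nlinarith
  have hfin := hmain m hm0 hmδ U G β₁ β₂ le_rfl hloc (δ / B) (by rw [hm]; nlinarith) O hO hne hOG
  refine (ENNReal.ofReal_le_ofReal ?_).trans (hfin.trans (dimH_mono ?_))
  · have hlb : 0 < Real.log β₁ := Real.log_pos hb1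
    have h1 : (1 + e) * m ^ 2 / (2 * (σ / B ^ 2) * Real.log β₁)
        = (1 + e) * (1 + e) ^ 2 / (2 * σ * Real.log β₁) * δ ^ 2 := by
      rw [hm]; field_simp
    have h2 : (1 + e) * (1 + e) ^ 2 / (2 * σ * Real.log β₁) * δ ^ 2
        ≤ (1 + ε) / (2 * σ * Real.log x₀) * δ ^ 2 := by
      apply mul_le_mul_of_nonneg_right _ (sq_nonneg δ)
      rw [div_le_div_iff₀ (by positivity) (by positivity)]
      have h3 : ε = 8 * e := by rw [he]; ring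
      have h4 : (1 + ε) * (2 * σ * ((1 - e) * Real.log x₀)) ≤ (1 + ε) * (2 * σ * Real.log β₁) := by gcongr
      have h5 : (1 + e) * (1 + e) ^ 2 ≤ (1 + ε) * (1 - e) := by
        rw [h3]
        nlinarith [mul_pos he0 he0, mul_pos (mul_pos he0 he0) he0]
      calc (1 + e) * (1 + e) ^ 2 * (2 * σ * Real.log x₀) ≤ ((1 + ε) * (1 - e)) * (2 * σ * Real.log x₀) := by gcongr
        _ ≤ _ := by linarith
    rw [h1]
    linarith
  · rintro x ⟨hxO, hx⟩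
    refine ⟨hxO, liminf_of_event (SW_bdd hB hbd U x) ?_⟩
    filter_upwards [hx, eventually_ge_atTop 1] with N hN hN1
    have hNpos : (0 : ℝ) < N := by exact_mod_cast hN1
    rw [SW_div, le_div_iff₀ hB] at hN
    rw [le_div_iff₀ hNpos]
    have h2 : (δ / B) * N * B = δ * N := by field_simp
    rw [h2] at hN
    exact hN

/-- the local families -/
theorem isFam_locI {x₀ β₁ β₂ τ : ℝ} (hx₀ : 1 < x₀) (hβ : 1 < β₁) (h₁ : β₁ < x₀) (h₂ : x₀ < β₂) (hτ : 0 < τ) (D : ℕ) :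
    ∃ ρ₀ : ℝ, 0 < ρ₀ ∧ ∀ (O : Set ℝ) (u : ℕ → ℝ → ℝ), IsFam x₀ ρ₀ O u → ∃ G : Set ℝ, O ⊆ G ∧
      LocFamI u G (fun d => x₀ ^ d) D τ β₁ β₂ := by
  obtain ⟨ρ₀, hρ₀, hpow⟩ := instI_pow hx₀ hβ h₁ h₂ hτ D
  refine ⟨ρ₀, hρ₀, ?_⟩
  rintro O u ⟨hO, hne, c, ⟨A, hA, hsub, rfl⟩ | rfl⟩
  · exact ⟨_, hsub, hpow A hA c⟩
  · exact ⟨univ, subset_univ _, instI_mul hx₀ hβ h₁ h₂ hτ D c⟩

/-- means of a trigonometric polynomial along the windows of length `k` -/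
theorem win_result {x₀ : ℝ} (hx₀ : 1 < x₀) (htr : Transcendental ℤ x₀) (k : ℕ) (Φ : (Fin k → ℝ) → ℝ)
    (S : Finset (Fin k → ℤ)) (z : (Fin k → ℤ) → ℂ) (hS : 0 ∉ S) (hΦ : TrigP k Φ S z)
    {σ : ℝ} (hσ : sig2 k Φ = σ) (hσ0 : 0 < σ) {ε : ℝ} (hε : 0 < ε) :
    ∃ δ₀ : ℝ, 0 < δ₀ ∧ ∃ ρ₀ : ℝ, 0 < ρ₀ ∧ ∀ (O : Set ℝ) (u : ℕ → ℝ → ℝ), IsFam x₀ ρ₀ O u →
      ∀ δ : ℝ, 0 < δ → δ ≤ δ₀ →
        DimBetween O (fun x N => (∑ n ∈ Finset.range N, Φ (fun i : Fin k => u (n + i) x)) / N) δ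
          ((1 - ε) / (2 * σ * Real.log x₀)) ((1 + ε) / (2 * σ * Real.log x₀)) := by
  have hlx := Real.log_pos hx₀
  obtain ⟨D, τ, β₁, β₂, δ₁, hτ, hb1, hb2, hb3, hδ₁, hup'⟩ := win_upper hx₀ htr k Φ S z hS hΦ hσ hσ0
    (ε := min ε 1) (by positivity) (min_le_right _ _)
  obtain ⟨D', τ', β₁', β₂', δ₂, hτ', hb1', hb2', hb3', hδ₂, hlo'⟩ := win_lower hx₀ htr k Φ S z hS hΦ hσ hσ0
    (ε := min ε 1) (by positivity) (min_le_right _ _)
  obtain ⟨ρ₁, hρ₁, hf1⟩ := isFam_locI hx₀ hb1 hb2 hb3 hτ D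
  obtain ⟨ρ₂, hρ₂, hf2⟩ := isFam_locI hx₀ hb1' hb2' hb3' hτ' D'
  refine ⟨min δ₁ δ₂, by positivity, min ρ₁ ρ₂, by positivity, fun O u hu δ hδ hδδ => ⟨?_, ?_⟩⟩
  · obtain ⟨G, hOG, hloc⟩ := hf2 O u (hu.mono (min_le_right _ _))
    refine (ENNReal.ofReal_le_ofReal ?_).trans (hlo' δ hδ (hδδ.trans (min_le_right _ _)) u G hloc O hu.1 hu.2.1 hOG)
    have h1 : (1 + min ε 1) / (2 * σ * Real.log x₀) ≤ (1 + ε) / (2 * σ * Real.log x₀) := by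
      apply div_le_div_of_nonneg_right _ (by positivity)
      linarith [min_le_left ε 1]
    have := mul_le_mul_of_nonneg_right h1 (sq_nonneg δ)
    linarith
  · obtain ⟨G, hOG, hloc⟩ := hf1 O u (hu.mono (min_le_left _ _))
    refine (dimH_mono ?_).trans ((hup' δ hδ (hδδ.trans (min_le_left _ _)) u G hloc).trans (ENNReal.ofReal_le_ofReal ?_))
    · rintro x ⟨hx, h⟩
      exact ⟨hOG hx, h⟩
    · have h1 : (1 - ε) / (2 * σ * Real.log x₀) ≤ (1 - min ε 1) / (2 * σ * Real.log x₀) := by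
        apply div_le_div_of_nonneg_right _ (by positivity)
        linarith [min_le_left ε 1]
      have := mul_le_mul_of_nonneg_right h1 (sq_nonneg δ)
      linarith

end Pool.Agent.Helper44.KW
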