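import Pool.Agent.Helper44.KW.Defs
import Pool.Agent.Helper41.KD.Bonnet

/-! Oscillatory integrals with monotone derivative. -/

set_option autoImplicit false

namespace Pool.Agent.Helper44.KW

open MeasureTheory Set Filter Topology Pool.Agent.Helper78.KD
open Pool.Agent.Helper41.KD (bonnet)

theorem ex_eq (t : ℝ) : ex t = (Real.cos (2 * Real.pi * t) : ℂ) + (Real.sin (2 * Real.pi * t) : ℂ) * Complex.I := by
  unfold ex
  have : (2 * (Real.pi : ℂ) * (t : ℂ) * Complex.I) = ((2 * Real.pi * t : ℝ) : ℂ) * Complex.I := by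
    push_cast; ring
  rw [this, Complex.exp_mul_I, Complex.ofReal_cos, Complex.ofReal_sin]

theorem ex_add (s t : ℝ) : ex (s + t) = ex s * ex t := by
  unfold ex
  rw [← Complex.exp_add]
  congr 1
  push_cast; ring

theorem ex_norm (t : ℝ) : ‖ex t‖ = 1 := by
  unfold ex
  have : (2 * (Real.pi : ℂ) * (t : ℂ) * Complex.I) = ((2 * Real.pi * t : ℝ) : ℂ) * Complex.I := by
    push_cast; ring
  rw [this, Complex.norm_exp_ofReal_mul_I]

theorem ex_zero : ex 0 = 1 := by unfold ex; simp

theorem ex_cont : Continuous ex := by unfold ex; fun_prop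

theorem ex_neg (t : ℝ) : ex (-t) = (starRingEnd ℂ) (ex t) := by
  rw [ex_eq, ex_eq]
  simp only [mul_neg, Real.cos_neg, Real.sin_neg, map_add, map_mul, Complex.conj_ofReal,
    Complex.conj_I, Complex.ofReal_neg]
  ring

theorem osc {f f' : ℝ → ℝ} {p q : ℝ} (hpq : p ≤ q) (hd : ∀ x ∈ Icc p q, HasDerivAt f (f' x) x)
    (hc : ContinuousOn f' (Icc p q)) (hm : MonotoneOn f' (Icc p q)) (hpos : 0 < f' p) :
    ‖∫ x in p..q, ex (f x)‖ ≤ 1 / f' p := by
  have hp : p ∈ Icc p q := ⟨le_rfl, hpq⟩
  have hf0 : ∀ x ∈ Icc p q, 0 < f' x := fun x hx => lt_of_lt_of_le hpos (hm hp hx hx.1)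
  have hfc : ContinuousOn f (Icc p q) := fun x hx => (hd x hx).continuousAt.continuousWithinAt
  have hanti : AntitoneOn (fun x => 1 / f' x) (Icc p q) := fun x hx y hy hxy =>
    one_div_le_one_div_of_le (hf0 x hx) (hm hx hy hxy)
  have h2 : ContinuousOn (fun x => 2 * Real.pi * f x) (Icc p q) := continuousOn_const.mul hfc
  have hcosc : ContinuousOn (fun x => Real.cos (2 * Real.pi * f x)) (Icc p q) :=
    Real.continuous_cos.comp_continuousOn h2
  have hsinc : ContinuousOn (fun x => Real.sin (2 * Real.pi * f x)) (Icc p q) :=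
    Real.continuous_sin.comp_continuousOn h2
  have hpi : 0 < Real.pi := Real.pi_pos
  have hpi3 : 3 < Real.pi := Real.pi_gt_three
  -- primitives
  have hC : ∀ x ∈ Icc p q, |∫ y in p..x, f' y * Real.cos (2 * Real.pi * f y)| ≤ 1 / Real.pi := by
    intro x hx
    have hsub : Icc p x ⊆ Icc p q := Icc_subset_Icc_right hx.2
    have e1 : ∫ y in p..x, f' y * Real.cos (2 * Real.pi * f y)
        = Real.sin (2 * Real.pi * f x) / (2 * Real.pi) - Real.sin (2 * Real.pi * f p) / (2 * Real.pi) := by
      apply intervalIntegral.integral_eq_sub_of_hasDerivAt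
      · intro y hy
        rw [uIcc_of_le hx.1] at hy
        have h3 := ((hd y (hsub hy)).const_mul (2 * Real.pi)).sin.div_const (2 * Real.pi)
        refine h3.congr_deriv ?_
        field_simp
      · apply ContinuousOn.intervalIntegrable
        rw [uIcc_of_le hx.1]
        exact (hc.mul hcosc).mono hsub
    rw [e1, ← sub_div, abs_div, abs_of_pos (by positivity : (0 : ℝ) < 2 * Real.pi)]
    rw [div_le_div_iff₀ (by positivity) hpi]
    have h4 := abs_sub (Real.sin (2 * Real.pi * f x)) (Real.sin (2 * Real.pi * f p))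
    have h5 := Real.abs_sin_le_one (2 * Real.pi * f x)
    have h6 := Real.abs_sin_le_one (2 * Real.pi * f p)
    nlinarith
  have hS : ∀ x ∈ Icc p q, |∫ y in p..x, f' y * Real.sin (2 * Real.pi * f y)| ≤ 1 / Real.pi := by
    intro x hx
    have hsub : Icc p x ⊆ Icc p q := Icc_subset_Icc_right hx.2
    have e1 : ∫ y in p..x, f' y * Real.sin (2 * Real.pi * f y)
        = -Real.cos (2 * Real.pi * f x) / (2 * Real.pi)
          - -Real.cos (2 * Real.pi * f p) / (2 * Real.pi) := by
      apply intervalIntegral.integral_eq_sub_of_hasDerivAt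
      · intro y hy
        rw [uIcc_of_le hx.1] at hy
        have h3 := ((hd y (hsub hy)).const_mul (2 * Real.pi)).cos.neg.div_const (2 * Real.pi)
        refine h3.congr_deriv ?_
        field_simp
      · apply ContinuousOn.intervalIntegrable
        rw [uIcc_of_le hx.1]
        exact (hc.mul hsinc).mono hsub
    rw [e1, ← sub_div, abs_div, abs_of_pos (by positivity : (0 : ℝ) < 2 * Real.pi)]
    rw [div_le_div_iff₀ (by positivity) hpi]
    have h4 := abs_sub (-Real.cos (2 * Real.pi * f x)) (-Real.cos (2 * Real.pi * f p))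
    rw [abs_neg, abs_neg] at h4
    have h5 := Real.abs_cos_le_one (2 * Real.pi * f x)
    have h6 := Real.abs_cos_le_one (2 * Real.pi * f p)
    nlinarith
  have hq : q ∈ Icc p q := ⟨hpq, le_rfl⟩
  have bC := bonnet (g := fun x => f' x * Real.cos (2 * Real.pi * f x)) hpq hanti
    (by have := hf0 q hq; positivity) (hc.mul hcosc) hC
  have bS := bonnet (g := fun x => f' x * Real.sin (2 * Real.pi * f x)) hpq hanti
    (by have := hf0 q hq; positivity) (hc.mul hsinc) hS
  have eC : ∫ x in p..q, 1 / f' x * (f' x * Real.cos (2 * Real.pi * f x))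
      = ∫ x in p..q, Real.cos (2 * Real.pi * f x) := by
    apply intervalIntegral.integral_congr
    intro x hx
    rw [uIcc_of_le hpq] at hx
    have := hf0 x hx
    simp only
    field_simp
  have eS : ∫ x in p..q, 1 / f' x * (f' x * Real.sin (2 * Real.pi * f x))
      = ∫ x in p..q, Real.sin (2 * Real.pi * f x) := by
    apply intervalIntegral.integral_congr
    intro x hx
    rw [uIcc_of_le hpq] at hx
    have := hf0 x hx
    simp only
    field_simp
  rw [eC] at bC
  rw [eS] at bS
  have hIc : IntervalIntegrable (fun x => ((Real.cos (2 * Real.pi * f x) : ℝ) : ℂ)) volume p q := by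
    apply ContinuousOn.intervalIntegrable
    rw [uIcc_of_le hpq]
    exact Complex.continuous_ofReal.comp_continuousOn hcosc
  have hIs : IntervalIntegrable (fun x => ((Real.sin (2 * Real.pi * f x) : ℝ) : ℂ) * Complex.I)
      volume p q := by
    apply ContinuousOn.intervalIntegrable
    rw [uIcc_of_le hpq]
    exact (Complex.continuous_ofReal.comp_continuousOn hsinc).mul continuousOn_const
  have e : ∫ x in p..q, ex (f x) = ((∫ x in p..q, Real.cos (2 * Real.pi * f x) : ℝ) : ℂ)
      + ((∫ x in p..q, Real.sin (2 * Real.pi * f x) : ℝ) : ℂ) * Complex.I := by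
    simp only [ex_eq]
    rw [intervalIntegral.integral_add hIc hIs, intervalIntegral.integral_mul_const,
      intervalIntegral.integral_ofReal, intervalIntegral.integral_ofReal]
  rw [e]
  refine (norm_add_le _ _).trans ?_
  rw [norm_mul, Complex.norm_I, mul_one, Complex.norm_real, Complex.norm_real, Real.norm_eq_abs,
    Real.norm_eq_abs]
  have h7 : 1 / Real.pi * (1 / f' p) + 1 / Real.pi * (1 / f' p) ≤ 1 / f' p := by
    have h8 : 1 / Real.pi ≤ 1 / 2 := one_div_le_one_div_of_le (by norm_num) (by linarith)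
    have h9 : 0 < 1 / f' p := by positivity
    nlinarith
  linarith

/-- the same for a function with antitone negative derivative -/
theorem osc_neg {f f' : ℝ → ℝ} {p q : ℝ} (hpq : p ≤ q) (hd : ∀ x ∈ Icc p q, HasDerivAt f (f' x) x)
    (hc : ContinuousOn f' (Icc p q)) (hm : AntitoneOn f' (Icc p q)) (hpos : f' p < 0) :
    ‖∫ x in p..q, ex (f x)‖ ≤ 1 / (-f' p) := by
  have h := osc (f := fun x => -f x) (f' := fun x => -f' x) hpq (fun x hx => (hd x hx).neg)
    hc.neg (fun x hx y hy hxy => neg_le_neg (hm hx hy hxy)) (by linarith)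
  have e : ∫ x in p..q, ex (-f x) = (starRingEnd ℂ) (∫ x in p..q, ex (f x)) := by
    simp only [ex_neg]
    rw [intervalIntegral.integral_of_le hpq, intervalIntegral.integral_of_le hpq, integral_conj]
  rw [e, Complex.norm_conj] at h
  exact h

end Pool.Agent.Helper44.KW
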