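import Pool.Agent.Helper44.KW.Good
import Pool.Agent.Helper44.KD.BlockVar

/-! Bounds for the integrals of the exponentials of one or two windows. -/

set_option autoImplicit false

namespace Pool.Agent.Helper44.KW

open MeasureTheory Set Filter Topology Pool.Agent.Helper78.KD

/-- extension by zero -/
def ext1 {k : ℕ} (h : Fin k → ℤ) (m : ℕ) : ℤ := if hm : m < k then h ⟨m, hm⟩ else 0

/-- extension by zero of a translate -/
def ext2 {k : ℕ} (h : Fin k → ℤ) (d m : ℕ) : ℤ :=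
  if hm : d ≤ m ∧ m < d + k then h ⟨m - d, by omega⟩ else 0

theorem cmb_eq {k : ℕ} (h h' : Fin k → ℤ) (d m : ℕ) : cmb h h' d m = ext1 h m + ext2 h' d m := rfl

theorem sum_ext1 {k : ℕ} (h : Fin k → ℤ) (F : ℤ → ℕ → ℝ) (hF : ∀ m, F 0 m = 0) (d : ℕ) :
    ∑ m ∈ Finset.range (d + k), F (ext1 h m) m = ∑ m ∈ Finset.range k, F (ext1 h m) m := by
  rw [add_comm d k, Finset.sum_range_add]
  have : ∑ x ∈ Finset.range d, F (ext1 h (k + x)) (k + x) = 0 := by
    apply Finset.sum_eq_zero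
    intro x _
    have : ext1 h (k + x) = 0 := by
      unfold ext1
      rw [dif_neg (by omega)]
    rw [this, hF]
  rw [this, add_zero]

theorem sum_ext2 {k : ℕ} (h : Fin k → ℤ) (F : ℤ → ℕ → ℝ) (hF : ∀ m, F 0 m = 0) (d : ℕ) :
    ∑ m ∈ Finset.range (d + k), F (ext2 h d m) m
      = ∑ m ∈ Finset.range k, F (ext1 h m) (d + m) := by
  rw [Finset.sum_range_add]
  have : ∑ x ∈ Finset.range d, F (ext2 h d x) x = 0 := by
    apply Finset.sum_eq_zero
    intro x hx
    have hx' := Finset.mem_range.1 hx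
    have : ext2 h d x = 0 := by
      unfold ext2
      rw [dif_neg (by omega)]
    rw [this, hF]
  rw [this, zero_add]
  apply Finset.sum_congr rfl
  intro m hm
  have hm' := Finset.mem_range.1 hm
  have : ext2 h d (d + m) = ext1 h m := by
    unfold ext1 ext2
    rw [dif_pos hm', dif_pos (by omega)]
    congr 2
    omega
  rw [this]

theorem lin_eq {k : ℕ} (h : Fin k → ℤ) (w : ℕ → ℝ → ℝ) (n : ℕ) (x : ℝ) :
    lin h w n x = ∑ m ∈ Finset.range k, (ext1 h m : ℝ) * w (n + m) x := by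
  unfold lin
  rw [Finset.sum_range]
  apply Finset.sum_congr rfl
  intro i _
  unfold ext1
  rw [dif_pos i.2]

theorem sum_cmb {k : ℕ} (h h' : Fin k → ℤ) (d : ℕ) (F : ℕ → ℝ) :
    ∑ m ∈ Finset.range (d + k), (cmb h h' d m : ℝ) * F m
      = ∑ m ∈ Finset.range k, (ext1 h m : ℝ) * F m
        + ∑ m ∈ Finset.range k, (ext1 h' m : ℝ) * F (d + m) := by
  have h1 := sum_ext1 h (fun z m => (z : ℝ) * F m) (fun m => by simp) d
  have h2 := sum_ext2 h' (fun z m => (z : ℝ) * F m) (fun m => by simp) d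
  rw [← h1, ← h2, ← Finset.sum_add_distrib]
  apply Finset.sum_congr rfl
  intro m _
  rw [cmb_eq]; push_cast; ring

theorem lin_pair {k : ℕ} (h h' : Fin k → ℤ) (w : ℕ → ℝ → ℝ) (n d : ℕ) (x : ℝ) :
    lin h w n x + lin h' w (n + d) x
      = ∑ m ∈ Finset.range (d + k), (cmb h h' d m : ℝ) * w (n + m) x := by
  rw [sum_cmb h h' d (fun m => w (n + m) x), lin_eq, lin_eq]
  congr 1
  apply Finset.sum_congr rfl
  intro m _
  rw [add_assoc]

theorem sum_abs_cmb {k : ℕ} (h h' : Fin k → ℤ) (d : ℕ) :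
    ∑ m ∈ Finset.range (d + k), |(cmb h h' d m : ℝ)|
      ≤ ∑ m ∈ Finset.range k, |(ext1 h m : ℝ)| + ∑ m ∈ Finset.range k, |(ext1 h' m : ℝ)| := by
  have h1 := sum_ext1 h (fun z _ => |(z : ℝ)|) (fun m => by simp) d
  have h2 := sum_ext2 h' (fun z _ => |(z : ℝ)|) (fun m => by simp) d
  rw [← h1, ← h2, ← Finset.sum_add_distrib]
  apply Finset.sum_le_sum
  intro m _
  rw [cmb_eq]; push_cast
  exact abs_add_le _ _

theorem tr_sum {x₀ : ℝ} (hx : Transcendental ℤ x₀) (N : ℕ) (g : ℕ → ℤ)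
    (h : ∑ m ∈ Finset.range N, (g m : ℝ) * x₀ ^ m = 0) : ∀ m < N, g m = 0 := by
  classical
  rw [transcendental_iff] at hx
  set p : Polynomial ℤ := ∑ m ∈ Finset.range N, Polynomial.monomial m (g m) with hp
  have h1 : Polynomial.aeval x₀ p = 0 := by
    rw [hp, map_sum]
    simp only [Polynomial.aeval_monomial]
    simpa using h
  have h2 := hx p h1
  intro m hm
  have h3 : p.coeff m = g m := by
    rw [hp, Polynomial.finsetSum_coeff]
    simp only [Polynomial.coeff_monomial]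
    rw [Finset.sum_ite_eq' (Finset.range N) m]
    rw [if_pos (Finset.mem_range.2 hm)]
  rw [← h3, h2, Polynomial.coeff_zero]

theorem exists_lb {ι : Type*} (T : Finset ι) (f : ι → ℝ) (h : ∀ t ∈ T, 0 < f t) :
    ∃ c : ℝ, 0 < c ∧ ∀ t ∈ T, c ≤ f t := by
  classical
  induction T using Finset.induction_on with
  | empty => exact ⟨1, one_pos, by simp⟩
  | insert i s hi ih =>
    obtain ⟨c, hc, hc2⟩ := ih fun t ht => h t (Finset.mem_insert_of_mem ht)
    refine ⟨min c (f i), lt_min hc (h i (Finset.mem_insert_self i s)), ?_⟩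
    intro t ht
    rcases Finset.mem_insert.1 ht with rfl | ht
    · exact min_le_right _ _
    · exact (min_le_left _ _).trans (hc2 t ht)

/-- the far part -/
theorem far_pos {u v : ℕ → ℝ → ℝ} {a b β₁ β₂ τ : ℝ} {D : ℕ} {γ : ℕ → ℝ}
    (hF : Fam u v a b β₁ β₂) (hR : Ratio v a b τ D γ) (hI : Inc v a b β₁ τ D γ)
    (h0 : γ 0 = 1) (hτ : 0 ≤ τ) (g g' : ℕ → ℤ) (k : ℕ) (hk : k ≤ D + 1) (n d : ℕ) (hkd : k ≤ d)
    {c : ℝ}
    (hfar : (∑ m ∈ Finset.range k, |(g m : ℝ)|) * (β₁⁻¹) ^ (d - k) ≤ c)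
    (hP : 2 * c ≤ ∑ m ∈ Finset.range k, (g' m : ℝ) * γ m
      - τ * ∑ m ∈ Finset.range k, |(g' m : ℝ)|) :
    Good a b fun x => (∑ m ∈ Finset.range k, (g m : ℝ) * v (n + m) x
      + ∑ m ∈ Finset.range k, (g' m : ℝ) * v (n + d + m) x) - c * v (n + d) x := by
  have h1 := good_far hF hI g n d hkd hfar
  have h2 := good_comb hF hR hI h0 hτ g' k hk (n + d)
  have h3 : 0 ≤ (∑ m ∈ Finset.range k, (g' m : ℝ) * γ m
      - τ * ∑ m ∈ Finset.range k, |(g' m : ℝ)|) - 2 * c := by linarith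
  refine ((h1.add h2).add ((good_v hF (n + d)).smul h3)).congr fun x => ?_
  ring

theorem pair_bound {x₀ β : ℝ} (hx : Transcendental ℤ x₀) (hβ : 1 < β) (k : ℕ)
    (S : Finset (Fin k → ℤ)) (hS : 0 ∉ S) :
    ∃ (D D₀ : ℕ) (τ C : ℝ), 0 < τ ∧ 0 < C ∧ ∀ (u v : ℕ → ℝ → ℝ) (a b β₁ β₂ : ℝ), β ≤ β₁ →
      Fam u v a b β₁ β₂ → Ratio v a b τ D (fun d => x₀ ^ d) → Inc v a b β₁ τ D (fun d => x₀ ^ d) →
      (∀ h ∈ S, ∀ (n : ℕ) (p q : ℝ), a ≤ p → p ≤ q → q ≤ b →
        ‖∫ x in p..q, ex (lin h u n x)‖ ≤ C / v n p) ∧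
      (∀ h ∈ S, ∀ h' ∈ S, ∀ (n d : ℕ) (p q : ℝ), a ≤ p → p ≤ q → q ≤ b → ¬ Van h h' d →
        ‖∫ x in p..q, ex (lin h u n x + lin h' u (n + d) x)‖ ≤ C / v n p ∧
        (D₀ ≤ d → ‖∫ x in p..q, ex (lin h u n x + lin h' u (n + d) x)‖ ≤ C / v (n + d) p)) := by
  classical
  -- sizes
  set H : ℝ := ∑ h ∈ S, ∑ m ∈ Finset.range k, |(ext1 h m : ℝ)| + 1 with hH
  have hsum0 : ∀ h : Fin k → ℤ, 0 ≤ ∑ m ∈ Finset.range k, |(ext1 h m : ℝ)| := fun h =>
    Finset.sum_nonneg fun m _ => abs_nonneg _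
  have hH1 : ∀ h ∈ S, ∑ m ∈ Finset.range k, |(ext1 h m : ℝ)| ≤ H := by
    intro h hh
    have := Finset.single_le_sum (f := fun h : Fin k → ℤ => ∑ m ∈ Finset.range k, |(ext1 h m : ℝ)|)
      (fun h _ => hsum0 h) hh
    rw [hH]; linarith
  have hH0 : 0 < H := by
    have : 0 ≤ ∑ h ∈ S, ∑ m ∈ Finset.range k, |(ext1 h m : ℝ)| :=
      Finset.sum_nonneg fun h _ => hsum0 h
    rw [hH]; linarith
  -- singles
  have hpos1 : ∀ h ∈ S, 0 < |∑ m ∈ Finset.range k, (ext1 h m : ℝ) * x₀ ^ m| := by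
    intro h hh
    rw [abs_pos]
    intro h0
    have h1 := tr_sum hx k (ext1 h) h0
    apply hS
    have : h = 0 := by
      funext i
      have := h1 i i.2
      unfold ext1 at this
      rw [dif_pos i.2] at this
      simpa using this
    rwa [this] at hh
  obtain ⟨c1, hc1, hc1'⟩ := exists_lb S _ hpos1
  -- D₀
  obtain ⟨J, hJ⟩ := ((tendsto_pow_atTop_nhds_zero_of_lt_one
    (inv_nonneg.2 (by linarith : (0 : ℝ) ≤ β)) (inv_lt_one_of_one_lt₀ hβ)).eventually_lt_const
    (show (0 : ℝ) < c1 / (4 * H) by positivity)).exists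
  set D₀ : ℕ := k + J with hD₀
  -- pairs
  let T : Finset ((Fin k → ℤ) × (Fin k → ℤ) × ℕ) :=
    (S ×ˢ (S ×ˢ Finset.range D₀)).filter fun t => ¬ Van t.1 t.2.1 t.2.2
  have hpos2 : ∀ t ∈ T, 0 < |∑ m ∈ Finset.range (t.2.2 + k),
      (cmb t.1 t.2.1 t.2.2 m : ℝ) * x₀ ^ m| := by
    intro t ht
    rw [abs_pos]
    intro h0
    have h1 := tr_sum hx (t.2.2 + k) (cmb t.1 t.2.1 t.2.2) h0
    apply (Finset.mem_filter.1 ht).2
    intro m
    rcases Nat.lt_or_ge m (t.2.2 + k) with hm | hm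
    · exact h1 m hm
    · unfold cmb
      rw [dif_neg (by omega), dif_neg (by omega)]
      rfl
  obtain ⟨c2, hc2, hc2'⟩ := exists_lb T _ hpos2
  set τ : ℝ := min (c1 / (4 * H)) (c2 / (4 * H)) with hτ
  have hτ0 : 0 < τ := lt_min (by positivity) (by positivity)
  have hτ1 : τ * H ≤ c1 / 4 := by
    have := min_le_left (c1 / (4 * H)) (c2 / (4 * H))
    rw [← hτ, le_div_iff₀ (by positivity)] at this
    linarith
  have hτ2 : τ * H ≤ c2 / 4 := by
    have := min_le_right (c1 / (4 * H)) (c2 / (4 * H))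
    rw [← hτ, le_div_iff₀ (by positivity)] at this
    linarith
  refine ⟨D₀ + k, D₀, τ, 4 / c1 + 4 / c2, hτ0, by positivity, ?_⟩
  intro u v a b β₁ β₂ hββ hF hR hI
  have hβ1 : 0 < β₁ := by linarith
  have hγ0 : (fun d : ℕ => x₀ ^ d) 0 = 1 := by simp
  have hC1 : ∀ w : ℝ, 0 < w → 1 / (c1 / 4 * w) ≤ (4 / c1 + 4 / c2) / w := by
    intro w hw
    have e1 : 1 / (c1 / 4 * w) = (4 / c1) / w := by field_simp
    rw [e1]
    apply div_le_div_of_nonneg_right _ hw.le
    have : 0 < 4 / c2 := by positivity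
    linarith
  have hC2 : ∀ w : ℝ, 0 < w → 1 / (c2 / 4 * w) ≤ (4 / c1 + 4 / c2) / w := by
    intro w hw
    have e1 : 1 / (c2 / 4 * w) = (4 / c2) / w := by field_simp
    rw [e1]
    apply div_le_div_of_nonneg_right _ hw.le
    have : 0 < 4 / c1 := by positivity
    linarith
  refine ⟨?_, ?_⟩
  · intro h hh n p q hp hpq hq
    have hpI : p ∈ Icc a b := ⟨hp, hpq.trans hq⟩
    have hb := osc_comb hF hR hI hγ0 hτ0.le (ext1 h) k (by omega) n
      (show (0 : ℝ) < c1 / 4 by positivity) (by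
        have h1 := hc1' h hh
        have h2 : τ * ∑ m ∈ Finset.range k, |(ext1 h m : ℝ)| ≤ τ * H :=
          mul_le_mul_of_nonneg_left (hH1 h hh) hτ0.le
        linarith) hp hpq hq
    simp only [lin_eq]
    exact hb.trans (hC1 _ (hF.pos n p hpI))
  · intro h hh h' hh' n d p q hp hpq hq hV
    have hpI : p ∈ Icc a b := ⟨hp, hpq.trans hq⟩
    rcases Nat.lt_or_ge d D₀ with hd | hd
    · refine ⟨?_, fun h1 => by omega⟩
      have hmem : (h, h', d) ∈ T := by
        simp only [T, Finset.mem_filter, Finset.mem_product, Finset.mem_range]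
        exact ⟨⟨hh, hh', hd⟩, hV⟩
      have hb := osc_comb hF hR hI hγ0 hτ0.le (cmb h h' d) (d + k) (by omega) n
        (show (0 : ℝ) < c2 / 4 by positivity) (by
          have h1 := hc2' _ hmem
          simp only at h1
          have h2 : τ * ∑ m ∈ Finset.range (d + k), |(cmb h h' d m : ℝ)| ≤ τ * (H + H) :=
            mul_le_mul_of_nonneg_left ((sum_abs_cmb h h' d).trans
              (add_le_add (hH1 h hh) (hH1 h' hh'))) hτ0.le
          linarith) hp hpq hq
      simp only [lin_pair]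
      exact hb.trans (hC2 _ (hF.pos n p hpI))
    · -- far
      have hkd : k ≤ d := by omega
      have hfar0 : H * (β₁⁻¹) ^ (d - k) ≤ c1 / 4 := by
        have e1 : β₁⁻¹ ^ (d - k) ≤ β⁻¹ ^ J := by
          calc β₁⁻¹ ^ (d - k) ≤ β⁻¹ ^ (d - k) :=
                pow_le_pow_left₀ (inv_nonneg.2 hβ1.le) (inv_anti₀ (by linarith) hββ) _
            _ ≤ β⁻¹ ^ J := pow_le_pow_of_le_one (inv_nonneg.2 (by linarith))
                (inv_le_one_of_one_le₀ hβ.le) (by omega)
        have e2 : H * β₁⁻¹ ^ (d - k) ≤ H * (c1 / (4 * H)) :=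
          mul_le_mul_of_nonneg_left (e1.trans hJ.le) hH0.le
        have e3 : H * (c1 / (4 * H)) = c1 / 4 := by field_simp
        linarith
      have hfar : ∀ g : ℕ → ℤ, ∑ m ∈ Finset.range k, |(g m : ℝ)| ≤ H →
          (∑ m ∈ Finset.range k, |(g m : ℝ)|) * (β₁⁻¹) ^ (d - k) ≤ c1 / 4 := fun g hg =>
        (mul_le_mul_of_nonneg_right hg (by positivity)).trans hfar0
      have hτh' : τ * ∑ m ∈ Finset.range k, |(ext1 h' m : ℝ)| ≤ c1 / 4 :=
        (mul_le_mul_of_nonneg_left (hH1 h' hh') hτ0.le).trans hτ1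
      have hder : ∀ x ∈ Icc a b, HasDerivAt (fun x => lin h u n x + lin h' u (n + d) x)
          (∑ m ∈ Finset.range k, (ext1 h m : ℝ) * v (n + m) x
            + ∑ m ∈ Finset.range k, (ext1 h' m : ℝ) * v (n + d + m) x) x := by
        intro x hx
        simp only [lin_eq]
        exact (comb_deriv hF (ext1 h) k n hx).add (comb_deriv hF (ext1 h') k (n + d) hx)
      have hb := osc_dom (f := fun x => lin h u n x + lin h' u (n + d) x) (w := v (n + d))
        (c := c1 / 4) hp hpq hq hder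
        ((comb_cont hF (ext1 h) k n).add (comb_cont hF (ext1 h') k (n + d)))
        (hF.pos _) (hF.mono _) (by positivity) (by
          have h1 := hc1' h' hh'
          rcases le_total 0 (∑ m ∈ Finset.range k, (ext1 h' m : ℝ) * x₀ ^ m) with hs | hs
          · left
            rw [abs_of_nonneg hs] at h1
            exact far_pos hF hR hI hγ0 hτ0.le (ext1 h) (ext1 h') k (by omega) n d hkd
              (hfar _ (hH1 h hh)) (by linarith)
          · right
            rw [abs_of_nonpos hs] at h1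
            have e0 : ∀ g : ℕ → ℤ, ∑ m ∈ Finset.range k, |((-g m : ℤ) : ℝ)|
                = ∑ m ∈ Finset.range k, |(g m : ℝ)| := fun g =>
              Finset.sum_congr rfl fun m _ => by push_cast; rw [abs_neg]
            have e1 : ∑ m ∈ Finset.range k, ((-ext1 h' m : ℤ) : ℝ) * x₀ ^ m
                = -∑ m ∈ Finset.range k, (ext1 h' m : ℝ) * x₀ ^ m := by
              rw [← Finset.sum_neg_distrib]
              exact Finset.sum_congr rfl fun m _ => by push_cast; ring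
            have h2 := far_pos hF hR hI hγ0 hτ0.le (fun m => -ext1 h m) (fun m => -ext1 h' m) k
              (by omega) n d hkd (hfar _ (by rw [e0]; exact hH1 h hh))
              (by rw [e0, e1]; linarith)
            refine h2.congr fun x => ?_
            have e2 : ∀ (g : ℕ → ℤ) (N : ℕ), ∑ m ∈ Finset.range k, ((-g m : ℤ) : ℝ) * v (N + m) x
                = -∑ m ∈ Finset.range k, (g m : ℝ) * v (N + m) x := by
              intro g N
              rw [← Finset.sum_neg_distrib]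
              exact Finset.sum_congr rfl fun m _ => by push_cast; ring
            rw [e2, e2]
            ring)
      have h3 := hb.trans (hC1 _ (hF.pos (n + d) p hpI))
      refine ⟨h3.trans ?_, fun _ => h3⟩
      apply div_le_div_of_nonneg_left (by positivity) (hF.pos n p hpI)
      have e6 := Pool.Agent.Helper44.KD.fam_growth hF (show 0 < β by linarith) hββ n d hpI
      have e8 : (1 : ℝ) ≤ β ^ d := one_le_pow₀ hβ.le
      have e9 := hF.pos n p hpI
      nlinarith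

end Pool.Agent.Helper44.KW
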